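import Pool.Agent.Q124.WV.Perm

set_option autoImplicit false
set_option linter.unusedSectionVars false

namespace Pool.Agent.Q124.WV

open Finset LaurentPolynomial Pool.Agent.H891R2.Jones Pool.Agent.H891R2.MT.T2

theorem coeff_T_mul (m j : ℤ) (f : ℤ[T;T⁻¹]) : (T m * f).coeff j = f.coeff (j - m) := by
  have h : (T m * f).coeff (m + (j - m)) = f.coeff (j - m) := by
    unfold LaurentPolynomial.T
    rw [AddMonoidAlgebra.coeff_single_mul_add, one_mul]
  rwa [add_sub_cancel] at h

theorem coeff_sum' {ι : Type} (s : Finset ι) (f : ι → ℤ[T;T⁻¹]) (j : ℤ) :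
    (∑ i ∈ s, f i).coeff j = ∑ i ∈ s, (f i).coeff j := by
  classical
  induction s using Finset.induction_on with
  | empty => rfl
  | insert a s ha ih =>
    rw [Finset.sum_insert ha, Finset.sum_insert ha, AddMonoidAlgebra.coeff_add, Finsupp.add_apply, ih]

theorem pow_eq (q : ℕ) : (-T 2 - T (-2) : ℤ[T;T⁻¹]) ^ q = 
    ∑ u ∈ range (q + 1), C ((-1) ^ q * (q.choose u : ℤ)) * T (2 * q - 4 * u) := by
  have h1 : (-T 2 - T (-2) : ℤ[T;T⁻¹]) = (-1) * (T (-2) + T 2) := by ring
  rw [h1, mul_pow, add_pow, Finset.mul_sum]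
  refine Finset.sum_congr rfl fun u hu => ?_
  rw [Finset.mem_range] at hu
  rw [T_pow, T_pow, ← T_add]
  have h2 : (u : ℤ) * -2 + ((q - u : ℕ) : ℤ) * 2 = 2 * q - 4 * u := by
    rw [Nat.cast_sub (by omega)]; ring
  rw [h2, map_mul, map_pow, map_neg, map_one]
  have h3 : (C ((q.choose u : ℕ) : ℤ) : ℤ[T;T⁻¹]) = (q.choose u : ℤ[T;T⁻¹]) := by simp
  rw [h3]
  ring

theorem coeff_C_mul_T (x : ℤ) (n a : ℤ) : (C x * T n : ℤ[T;T⁻¹]).coeff a = if a = n then x else 0 := by
  rw [mul_comm, coeff_T_mul, C_apply]
  by_cases h : a = n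
  · rw [if_pos h, if_pos (by omega)]
  · rw [if_neg h, if_neg (by omega)]

theorem coeff_pow (q : ℕ) (a : ℤ) : ((-T 2 - T (-2) : ℤ[T;T⁻¹]) ^ q).coeff a = 
    ∑ u ∈ range (q + 1), if a = 2 * q - 4 * u then (-1) ^ q * (q.choose u : ℤ) else 0 := by
  rw [pow_eq, coeff_sum']
  exact Finset.sum_congr rfl fun u _ => coeff_C_mul_T _ _ _

theorem coeff_pow_even (q : ℕ) (b : ℤ) : ((-T 2 - T (-2) : ℤ[T;T⁻¹]) ^ q).coeff (2 * q - 4 * b) = 
    if 0 ≤ b then (-1) ^ q * (q.choose b.toNat : ℤ) else 0 := by
  rw [coeff_pow]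
  split_ifs with hb
  · obtain ⟨c, rfl⟩ := Int.eq_ofNat_of_zero_le hb
    rw [Int.toNat_natCast]
    by_cases hc : c ≤ q
    · rw [Finset.sum_eq_single c]
      · rw [if_pos rfl]
      · intro u _ hu
        rw [if_neg]
        intro h
        apply hu
        omega
      · intro h
        exact absurd (Finset.mem_range.2 (by omega)) h
    · rw [Nat.choose_eq_zero_of_lt (by omega)]
      simp only [Nat.cast_zero, mul_zero]
      apply Finset.sum_eq_zero
      intro u hu
      rw [Finset.mem_range] at hu
      rw [if_neg (by omega)]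
  · apply Finset.sum_eq_zero
    intro u hu
    rw [if_neg (by omega)]

theorem coeff_pow_odd (q : ℕ) (a : ℤ) (h : ∀ b : ℤ, a ≠ 2 * q - 4 * b) : 
    ((-T 2 - T (-2) : ℤ[T;T⁻¹]) ^ q).coeff a = 0 := by
  rw [coeff_pow]
  apply Finset.sum_eq_zero
  intro u _
  rw [if_neg (h u)]

theorem coeff_pow_large (q : ℕ) (a : ℤ) (h : 2 * (q : ℤ) < a) : 
    ((-T 2 - T (-2) : ℤ[T;T⁻¹]) ^ q).coeff a = 0 := by
  rw [coeff_pow]
  apply Finset.sum_eq_zero
  intro u _
  rw [if_neg (by omega)]

theorem coeff_pow_neg (q : ℕ) (a : ℤ) : ((-T 2 - T (-2) : ℤ[T;T⁻¹]) ^ q).coeff (-a) = 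
    ((-T 2 - T (-2) : ℤ[T;T⁻¹]) ^ q).coeff a := by
  rw [← invert_apply, map_pow]
  congr 2
  rw [map_sub, map_neg, invert_T, invert_T]
  simp only [neg_neg]
  ring

section terms

variable {X : Type} [Fintype X] [DecidableEq X]

/-- contribution of the set `S` of switched crossings to the `j`-th coefficient -/
def tm (s : ℕ) (l : Finset X → ℕ) (j : ℕ) (S : Finset X) : ℤ :=
  if (s + #S - l S) % 2 = 0 ∧ (s + #S - l S) / 2 ≤ j then 
    (-1) ^ (l S - 1) * ((l S - 1).choose (j - (s + #S - l S) / 2) : ℤ) else 0

theorem tm_eq (s : ℕ) (l : Finset X → ℕ) (j : ℕ) (S : Finset X) (L : ℕ) (h1 : 1 ≤ l S) 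
    (h2 : l S ≤ s + #S) : 
    ((-T 2 - T (-2) : ℤ[T;T⁻¹]) ^ (l S - 1)).coeff ((L + 2 * (s - 1) - 4 * j : ℤ) - (L - 2 * #S)) = 
      tm s l j S := by
  unfold tm
  set e := s + #S - l S with he
  by_cases h3 : e % 2 = 0
  · have h4 : ((L + 2 * (s - 1) - 4 * j : ℤ) - (L - 2 * #S)) = 
        2 * ((l S - 1 : ℕ) : ℤ) - 4 * ((j : ℤ) - (e / 2 : ℕ)) := by
      omega
    rw [h4, coeff_pow_even]
    by_cases h5 : e / 2 ≤ j
    · rw [if_pos (by omega), if_pos ⟨h3, h5⟩]
      congr 3
      omega
    · rw [if_neg (by omega), if_neg (by tauto)]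
  · rw [if_neg (by tauto)]
    apply coeff_pow_odd
    intro b hb
    omega

end terms

section states

variable {X : Type} [Fintype X] [DecidableEq X]

/-- the pattern `h` switched at the elements of `S` -/
def pat (h : X → Bool) (S : Finset X) : X → Bool := fun k => if k ∈ S then !(h k) else h k

theorem pat_empty (h : X → Bool) : pat h ∅ = h := by
  funext k; simp [pat]

theorem pat_insert (h : X → Bool) (S : Finset X) (x : X) (hx : x ∉ S) : 
    pat h (insert x S) = Function.update (pat h S) x (!(pat h S x)) := by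
  funext k
  unfold pat
  by_cases hk : k = x
  · subst hk
    rw [Function.update_self, if_pos (Finset.mem_insert_self _ _), if_neg hx]
  · rw [Function.update_of_ne hk]
    simp [hk]

/-- states and sets of switched crossings -/
def stEquiv (ε : Bool) : Finset X ≃ (X → Bool) where
  toFun S := fun k => if k ∈ S then !ε else ε
  invFun s := univ.filter (fun k => s k ≠ ε)
  left_inv S := by
    ext k
    by_cases h : k ∈ S
    · simp [h]
    · simp [h]
  right_inv s := by
    funext k
    by_cases h : s k = ε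
    · simp [h]
    · simp only [Finset.mem_filter, Finset.mem_univ, true_and, h, not_false_eq_true, ne_eq, if_true]
      revert h
      cases s k <;> cases ε <;> simp

/-- sign of the type of smoothing -/
def sgn (ε : Bool) : ℤ := if ε then 1 else -1

theorem weight_eq {L : ℕ} (ε : Bool) (S : Finset (Fin L)) : 
    Diagram.weight (stEquiv ε S) = sgn ε * (L - 2 * #S) := by
  unfold Diagram.weight
  have h1 : ∀ i : Fin L, (if stEquiv ε S i = true then (1 : ℤ) else -1) = 
      sgn ε * (1 - 2 * (if i ∈ S then 1 else 0)) := by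
    intro i
    unfold stEquiv sgn
    by_cases h : i ∈ S
    · cases ε <;> simp [h]
    · cases ε <;> simp [h]
  rw [Finset.sum_congr rfl fun i _ => h1 i, ← Finset.mul_sum, Finset.sum_sub_distrib, ← Finset.mul_sum]
  simp

end states

section braid

variable {n L : ℕ} (w : Fin L → Bool × Fin n)

theorem clen : (closedBraid w).crossings.length = L := by simp [closedBraid]

/-- number of curves of the state with all crossings smoothed by `ε`, except those in `S` -/
noncomputable def ls (ε : Bool) (S : Finset (Fin L)) : ℕ :=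
  lp (finRotate L) (fun k => (w k).2) (pat (fun k => ε != (w k).1) S)

theorem loops_eq (s : Fin L → Bool) : 
    (closedBraid w).loops (fun i => s (Fin.cast (clen w) i)) = 
      lp (finRotate L) (fun k => (w k).2) (fun k => s k != (w k).1) := by
  rw [← lp_eq]
  unfold Diagram.loops
  have hcr : ∀ i : Fin (closedBraid w).crossings.length, (closedBraid w).crossings[i] = 
      if (w (Fin.cast (clen w) i)).1 then
      ⟨(Fin.cast (clen w) i, (w (Fin.cast (clen w) i)).2.succ), (finRotate L (Fin.cast (clen w) i), (w (Fin.cast (clen w) i)).2.succ), 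
        (finRotate L (Fin.cast (clen w) i), (w (Fin.cast (clen w) i)).2.castSucc),
        (Fin.cast (clen w) i, (w (Fin.cast (clen w) i)).2.castSucc), true, false⟩
    else
      ⟨(Fin.cast (clen w) i, (w (Fin.cast (clen w) i)).2.castSucc), (Fin.cast (clen w) i, (w (Fin.cast (clen w) i)).2.succ), 
        (finRotate L (Fin.cast (clen w) i), (w (Fin.cast (clen w) i)).2.succ),
        (finRotate L (Fin.cast (clen w) i), (w (Fin.cast (clen w) i)).2.castSucc), true, true⟩ := by
    intro i
    unfold closedBraid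
    exact List.getElem_ofFn _
  apply card_quot_congr
  · intro p q h
    rcases h with h | ⟨i, h⟩
    · simp only [closedBraid, List.mem_flatMap, List.mem_finRange, true_and, List.mem_map, 
        List.mem_filter, decide_eq_true_eq] at h
      obtain ⟨k, j, hj, h⟩ := h
      have h1 := congrArg Prod.fst h
      have h2 := congrArg Prod.snd h
      simp only at h1 h2
      exact Quot.sound ⟨k, Or.inl ⟨j, Or.inl (by simpa using hj), h1.symm, h2.symm⟩⟩
    · rw [hcr i] at h
      beta_reduce at h
      generalize Fin.cast (clen w) i = k at h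
      by_cases hw : (w k).1 = true
      · simp only [hw, if_true] at h
        by_cases hs : s k = true
        · simp only [hs, if_true] at h
          rcases h with ⟨rfl, rfl⟩ | ⟨rfl, rfl⟩
          · exact Quot.sound ⟨k, Or.inl ⟨_, Or.inr (by simp [hw, hs]), rfl, rfl⟩⟩
          · exact (Quot.sound ⟨k, Or.inl ⟨_, Or.inr (by simp [hw, hs]), rfl, rfl⟩⟩).symm
        · simp only [hs] at h
          rcases h with ⟨rfl, rfl⟩ | ⟨rfl, rfl⟩
          · exact (Quot.sound ⟨k, Or.inr ⟨by simp [hw, hs], Or.inr ⟨rfl, rfl⟩⟩⟩).symm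
          · exact Quot.sound ⟨k, Or.inr ⟨by simp [hw, hs], Or.inl ⟨rfl, rfl⟩⟩⟩
      · simp only [hw] at h
        by_cases hs : s k = true
        · simp only [hs, if_true] at h
          rcases h with ⟨rfl, rfl⟩ | ⟨rfl, rfl⟩
          · exact Quot.sound ⟨k, Or.inr ⟨by simp [hw, hs], Or.inl ⟨rfl, rfl⟩⟩⟩
          · exact (Quot.sound ⟨k, Or.inr ⟨by simp [hw, hs], Or.inr ⟨rfl, rfl⟩⟩⟩).symm
        · simp only [hs] at h
          rcases h with ⟨rfl, rfl⟩ | ⟨rfl, rfl⟩
          · exact Quot.sound ⟨k, Or.inl ⟨_, Or.inr (by simp [hw, hs]), rfl, rfl⟩⟩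
          · exact (Quot.sound ⟨k, Or.inl ⟨_, Or.inr (by simp [hw, hs]), rfl, rfl⟩⟩).symm
  · intro p q h
    obtain ⟨k, h⟩ := h
    have hJ : ∀ p q : Fin L × Fin (n + 1), (∀ i : Fin (closedBraid w).crossings.length, Fin.cast (clen w) i = k → 
        (if s k then (p = ((closedBraid w).crossings[i]).a ∧ q = ((closedBraid w).crossings[i]).b) ∨ 
      (p = ((closedBraid w).crossings[i]).c ∧ q = ((closedBraid w).crossings[i]).d)
    else (p = ((closedBraid w).crossings[i]).b ∧ q = ((closedBraid w).crossings[i]).c) ∨ 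
      (p = ((closedBraid w).crossings[i]).d ∧ q = ((closedBraid w).crossings[i]).a))) → 
        Quot.mk ((closedBraid w).Joined (fun i => s (Fin.cast (clen w) i))) p = Quot.mk _ q := by
      intro p q hi
      apply Quot.sound
      refine Or.inr ⟨Fin.cast (clen w).symm k, ?_⟩
      exact hi _ rfl
    by_cases hw : (w k).1 = true
    · by_cases hs : s k = true
      · have hp1 : Quot.mk ((closedBraid w).Joined (fun i => s (Fin.cast (clen w) i))) (k, (w k).2.succ) = 
            Quot.mk _ (finRotate L k, (w k).2.succ) := by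
          apply hJ
          intro i hi
          rw [hcr i, hi]
          simp [hw, hs]
        have hp2 : Quot.mk ((closedBraid w).Joined (fun i => s (Fin.cast (clen w) i))) (finRotate L k, (w k).2.castSucc) = 
            Quot.mk _ (k, (w k).2.castSucc) := by
          apply hJ
          intro i hi
          rw [hcr i, hi]
          simp [hw, hs]
        rcases h with ⟨j, _, rfl, rfl⟩ | ⟨h, _⟩
        · by_cases hj1 : j = (w k).2.castSucc
          · subst hj1; exact hp2.symm
          by_cases hj2 : j = (w k).2.succ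
          · subst hj2; exact hp1
          apply Quot.sound
          left
          simp only [closedBraid, List.mem_flatMap, List.mem_finRange, true_and, List.mem_map, 
            List.mem_filter, decide_eq_true_eq]
          exact ⟨k, j, by simp [hj1, hj2], rfl⟩
        · simp [hw, hs] at h
      · have hp1 : Quot.mk ((closedBraid w).Joined (fun i => s (Fin.cast (clen w) i))) (finRotate L k, (w k).2.succ) = 
            Quot.mk _ (finRotate L k, (w k).2.castSucc) := by
          apply hJ
          intro i hi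
          rw [hcr i, hi]
          simp [hw, hs]
        have hp2 : Quot.mk ((closedBraid w).Joined (fun i => s (Fin.cast (clen w) i))) (k, (w k).2.castSucc) = 
            Quot.mk _ (k, (w k).2.succ) := by
          apply hJ
          intro i hi
          rw [hcr i, hi]
          simp [hw, hs]
        rcases h with ⟨j, hj, rfl, rfl⟩ | ⟨_, ⟨rfl, rfl⟩ | ⟨rfl, rfl⟩⟩
        · rcases hj with hj | hj
          · apply Quot.sound
            left
            simp only [closedBraid, List.mem_flatMap, List.mem_finRange, true_and, List.mem_map, 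
              List.mem_filter, decide_eq_true_eq]
            exact ⟨k, j, by simp [hj.1, hj.2], rfl⟩
          · simp [hw, hs] at hj
        · exact hp2
        · exact hp1.symm
    · by_cases hs : s k = true
      · have hp1 : Quot.mk ((closedBraid w).Joined (fun i => s (Fin.cast (clen w) i))) (finRotate L k, (w k).2.succ) = 
            Quot.mk _ (finRotate L k, (w k).2.castSucc) := by
          apply hJ
          intro i hi
          rw [hcr i, hi]
          simp [hw, hs]
        have hp2 : Quot.mk ((closedBraid w).Joined (fun i => s (Fin.cast (clen w) i))) (k, (w k).2.castSucc) = 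
            Quot.mk _ (k, (w k).2.succ) := by
          apply hJ
          intro i hi
          rw [hcr i, hi]
          simp [hw, hs]
        rcases h with ⟨j, hj, rfl, rfl⟩ | ⟨_, ⟨rfl, rfl⟩ | ⟨rfl, rfl⟩⟩
        · rcases hj with hj | hj
          · apply Quot.sound
            left
            simp only [closedBraid, List.mem_flatMap, List.mem_finRange, true_and, List.mem_map, 
              List.mem_filter, decide_eq_true_eq]
            exact ⟨k, j, by simp [hj.1, hj.2], rfl⟩
          · simp [hw, hs] at hj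
        · exact hp2
        · exact hp1.symm
      · have hp1 : Quot.mk ((closedBraid w).Joined (fun i => s (Fin.cast (clen w) i))) (k, (w k).2.succ) = 
            Quot.mk _ (finRotate L k, (w k).2.succ) := by
          apply hJ
          intro i hi
          rw [hcr i, hi]
          simp [hw, hs]
        have hp2 : Quot.mk ((closedBraid w).Joined (fun i => s (Fin.cast (clen w) i))) (finRotate L k, (w k).2.castSucc) = 
            Quot.mk _ (k, (w k).2.castSucc) := by
          apply hJ
          intro i hi
          rw [hcr i, hi]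
          simp [hw, hs]
        rcases h with ⟨j, _, rfl, rfl⟩ | ⟨h, _⟩
        · by_cases hj1 : j = (w k).2.castSucc
          · subst hj1; exact hp2.symm
          by_cases hj2 : j = (w k).2.succ
          · subst hj2; exact hp1
          apply Quot.sound
          left
          simp only [closedBraid, List.mem_flatMap, List.mem_finRange, true_and, List.mem_map, 
            List.mem_filter, decide_eq_true_eq]
          exact ⟨k, j, by simp [hj1, hj2], rfl⟩
        · simp [hw, hs] at h

theorem bracket_eq (ε : Bool) : (closedBraid w).bracket = 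
    ∑ S : Finset (Fin L), T (sgn ε * (L - 2 * #S)) * (-T 2 - T (-2)) ^ (ls w ε S - 1) := by
  unfold Diagram.bracket
  let e1 : (Fin L → Bool) ≃ (Fin (closedBraid w).crossings.length → Bool) := 
    Equiv.arrowCongr (finCongr (clen w).symm) (Equiv.refl _)
  rw [← Equiv.sum_comp e1, ← Equiv.sum_comp (stEquiv ε)]
  refine Finset.sum_congr rfl fun S _ => ?_
  have h1 : e1 (stEquiv ε S) = fun i => (stEquiv ε S) (Fin.cast (clen w) i) := rfl
  have h2 : Diagram.weight (e1 (stEquiv ε S)) = Diagram.weight (stEquiv ε S) := by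
    unfold Diagram.weight
    rw [h1]
    exact Equiv.sum_comp (finCongr (clen w)) (fun i => if stEquiv ε S i = true then (1 : ℤ) else -1)
  rw [h2, weight_eq, h1, loops_eq]
  congr 3
  unfold ls
  congr 1
  funext k
  unfold pat stEquiv
  by_cases hk : k ∈ S
  · simp only [Equiv.coe_fn_mk, hk, if_true]
    cases ε <;> cases (w k).1 <;> rfl
  · simp [hk]

theorem bracket_coeff (ε : Bool) (a : ℤ) : (closedBraid w).bracket.coeff (sgn ε * a) = 
    ∑ S : Finset (Fin L), ((-T 2 - T (-2) : ℤ[T;T⁻¹]) ^ (ls w ε S - 1)).coeff (a - (L - 2 * #S)) := by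
  rw [bracket_eq w ε, coeff_sum']
  refine Finset.sum_congr rfl fun S _ => ?_
  rw [coeff_T_mul]
  cases ε
  · have h : sgn false * a - sgn false * ((L : ℤ) - 2 * #S) = -(a - (L - 2 * #S)) := by
      unfold sgn; simp; ring
    rw [h, coeff_pow_neg]
  · have h : sgn true * a - sgn true * ((L : ℤ) - 2 * #S) = (a - (L - 2 * #S)) := by
      unfold sgn; simp
    rw [h]

theorem ls_insert (ε : Bool) (S : Finset (Fin L)) (x : Fin L) : ls w ε (insert x S) ≤ ls w ε S + 1 := by
  by_cases hx : x ∈ S
  · rw [Finset.insert_eq_of_mem hx]; omega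
  · unfold ls
    rw [pat_insert _ _ _ hx]
    exact (lp_update _ _ _ _).1

theorem ls_le (ε : Bool) (S : Finset (Fin L)) : ls w ε S ≤ ls w ε ∅ + #S := by
  induction S using Finset.induction_on with
  | empty => simp
  | insert x S hx ih =>
    rw [Finset.card_insert_of_notMem hx]
    have := ls_insert w ε S x
    omega

theorem ls_pos (hL : 0 < L) (ε : Bool) (S : Finset (Fin L)) : 1 ≤ ls w ε S := by
  have : Nonempty (Fin L) := ⟨⟨0, hL⟩⟩
  exact lp_pos _ _ _

theorem bracket_coeff_tm (hL : 0 < L) (ε : Bool) (j : ℕ) : 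
    (closedBraid w).bracket.coeff (sgn ε * (L + 2 * (ls w ε ∅ - 1) - 4 * j)) = 
      ∑ S : Finset (Fin L), tm (ls w ε ∅) (ls w ε) j S := by
  rw [bracket_coeff]
  exact Finset.sum_congr rfl fun S _ => tm_eq _ _ _ _ _ (ls_pos w hL ε S) (ls_le w ε S)

theorem bracket_coeff_zero (ε : Bool) (a : ℤ) (ha : L + 2 * ((ls w ε ∅ : ℤ) - 1) < a) (hL : 0 < L) : 
    (closedBraid w).bracket.coeff (sgn ε * a) = 0 := by
  rw [bracket_coeff]
  apply Finset.sum_eq_zero
  intro S _
  apply coeff_pow_large
  have h1 := ls_pos w hL ε S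
  have h2 := ls_le w ε S
  omega

end braid

end Pool.Agent.Q124.WV
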