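import Pool.Agent.Q124.WV.Weave

set_option autoImplicit false
set_option linter.unusedSectionVars false

namespace Pool.Agent.Q124.WV

open Finset Pool.Agent.H891R2.MT.T2 Filter Topology

section conn

variable {n m : ℕ} (ε : Bool)

/-- class of a marked point in the base state -/
def cls (n m : ℕ) (ε : Bool) (p : Fin (m * n) × Fin (n + 1)) : 
    Quot (RR (finRotate (m * n)) (cl n m) (hb n m ε)) := Quot.mk _ p

theorem cls_step (k : Fin (m * n)) (j : Fin (n + 1)) (h : cc ε j ≠ (cl n m k : ℕ)) : 
    cls n m ε (k, j) = cls n m ε (finRotate (m * n) k, j) := 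
  Quot.sound ⟨k, Or.inl ⟨j, (step_ok ε k j).2 h, rfl, rfl⟩⟩

theorem cls_top (k : Fin (m * n)) (h : (cl n m k : ℕ) % 2 = eta ε) : 
    cls n m ε (finRotate (m * n) k, (cl n m k).castSucc) = cls n m ε (finRotate (m * n) k, (cl n m k).succ) := 
  Quot.sound ⟨k, Or.inr ⟨(hb_iff ε k).2 h, Or.inr ⟨rfl, rfl⟩⟩⟩

/-- moving down to the last crossing of the column -/
theorem reduce (hn : 0 < n) (j : Fin (n + 1)) (h0 : 0 ≤ cc ε j) (h1 : cc ε j < n) (d : ℕ) : 
    ∀ k : Fin (m * n), ((k : ℤ) - cc ε j - 1) % n = d → 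
      ∃ l : Fin (m * n), (cl n m l : ℕ) = cc ε j ∧ cls n m ε (k, j) = cls n m ε (finRotate (m * n) l, j) := by
  induction d with
  | zero =>
    intro k hk
    obtain ⟨l, rfl⟩ := (finRotate (m * n)).surjective k
    refine ⟨l, ?_, rfl⟩
    obtain ⟨δ, hδ⟩ := rot_int l
    rw [hδ] at hk
    obtain ⟨a, b, hl, hb, -, hc, -⟩ := kdiv l
    have hl' : ((l : ℕ) : ℤ) = n * a + b := by exact_mod_cast hl
    have h2 : (l : ℤ) + 1 - δ * (m * n) - cc ε j - 1 = (b - cc ε j) + n * (a - δ * m) := by
      rw [hl']; ring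
    rw [h2, Int.add_mul_emod_self_left] at hk
    push_cast at hk
    have h3 : (n : ℤ) ∣ (b - cc ε j) := Int.dvd_of_emod_eq_zero hk
    obtain ⟨q, hq⟩ := h3
    have h4 : q = 0 := by
      have hb' : (b : ℤ) < n := by exact_mod_cast hb
      by_contra hq0
      rcases lt_or_gt_of_ne hq0 with h | h
      · have : (n : ℤ) * q ≤ -n := by nlinarith
        omega
      · have : (n : ℤ) ≤ n * q := by nlinarith
        omega
    rw [hc]
    rw [h4, mul_zero] at hq
    omega
  | succ d ih =>
    intro k hk
    obtain ⟨l, rfl⟩ := (finRotate (m * n)).surjective k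
    obtain ⟨δ, hδ⟩ := rot_int l
    rw [hδ] at hk
    have h2 : (l : ℤ) + 1 - δ * (m * n) - cc ε j - 1 = (l - cc ε j) + n * (- δ * m) := by ring
    rw [h2, Int.add_mul_emod_self_left] at hk
    have hne : cc ε j ≠ (cl n m l : ℕ) := by
      intro h
      obtain ⟨a, b, hl, hb, -, hc, -⟩ := kdiv l
      have hl' : ((l : ℕ) : ℤ) = n * a + b := by exact_mod_cast hl
      rw [h, hc, hl'] at hk
      have : (n : ℤ) * a + b - b = n * a := by ring
      rw [this, Int.mul_emod_right] at hk
      push_cast at hk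
      omega
    rw [← cls_step ε l j hne]
    apply ih
    have h3 : ((l : ℤ) - cc ε j) = n * ((l - cc ε j) / n) + (d + 1) := by
      have := Int.mul_ediv_add_emod (l - cc ε j) n
      rw [hk] at this
      push_cast at this
      linarith
    have h4 : (l : ℤ) - cc ε j - 1 = d + n * ((l - cc ε j) / n) := by linarith
    rw [h4, Int.add_mul_emod_self_left]
    apply Int.emod_eq_of_lt (by positivity)
    have h5 := Int.emod_lt_of_pos ((l : ℤ) - cc ε j) (show (0 : ℤ) < n by exact_mod_cast hn)
    rw [hk] at h5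
    push_cast at h5
    linarith

theorem reduce' (hn : 0 < n) (k : Fin (m * n)) (j : Fin (n + 1)) (h0 : 0 ≤ cc ε j) (h1 : cc ε j < n) : 
    ∃ l : Fin (m * n), (cl n m l : ℕ) = cc ε j ∧ 
      cls n m ε (k, j) = cls n m ε (finRotate (m * n) l, (cl n m l).castSucc) := by
  have h2 := Int.emod_nonneg ((k : ℤ) - cc ε j - 1) (show (n : ℤ) ≠ 0 by omega)
  obtain ⟨d, hd⟩ := Int.eq_ofNat_of_zero_le h2
  obtain ⟨l, hl1, hl2⟩ := reduce ε hn j h0 h1 d k hd
  refine ⟨l, hl1, ?_⟩
  rw [hl2]
  have h3 : (cl n m l : ℕ) % 2 = eta ε := by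
    have := eta_lt ε
    unfold cc at hl1 h0
    split_ifs at hl1 h0 with h4
    · have h5 : (cl n m l : ℕ) = j := by exact_mod_cast hl1
      rw [h5]; exact h4
    · omega
  have h4 : j = (cl n m l).castSucc ∨ j = (cl n m l).succ := by
    unfold cc at hl1
    split_ifs at hl1
    · left; apply Fin.ext; rw [Fin.val_castSucc]; omega
    · right; apply Fin.ext; rw [Fin.val_succ]; omega
  rcases h4 with h4 | h4
  · rw [h4]
  · rw [h4]; exact (cls_top ε l h3).symm

theorem cls_hub (j : Fin (n + 1)) (h : ∀ k : Fin (m * n), cc ε j ≠ (cl n m k : ℕ)) (k k' : Fin (m * n)) : 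
    cls n m ε (k, j) = cls n m ε (k', j) := by
  have key : ∀ i : ℕ, ∀ hi : i < m * n, cls n m ε (⟨i, hi⟩, j) = cls n m ε (⟨0, by omega⟩, j) := by
    intro i
    induction i with
    | zero => intro hi; rfl
    | succ i ih =>
      intro hi
      rw [← ih (by omega)]
      have h1 := cls_step ε ⟨i, by omega⟩ j (h _)
      have h2 : finRotate (m * n) ⟨i, by omega⟩ = ⟨i + 1, hi⟩ := by
        apply Fin.ext
        rw [rot_val]
        rw [if_neg]
        intro h3
        simp only at h3
        omega
      rw [h2] at h1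
      exact h1.symm
  exact (key k k.2).trans (key k' k'.2).symm

/-- marked points with the same label lie on the same curve -/
theorem cls_of_lam (hn : 0 < n) (p q : Fin (m * n) × Fin (n + 1)) (h : lam n m ε p = lam n m ε q) : 
    cls n m ε p = cls n m ε q := by
  obtain ⟨k, j⟩ := p
  obtain ⟨k', j'⟩ := q
  have h2 : cc ε j = cc ε j' := by
    have := congrArg Prod.snd h
    unfold lam at this
    split_ifs at this <;> exact this
  by_cases hv : 0 ≤ cc ε j ∧ cc ε j < n
  · obtain ⟨l, hl1, hl2⟩ := reduce' ε hn k j hv.1 hv.2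
    obtain ⟨l', hl1', hl2'⟩ := reduce' ε hn k' j' (h2 ▸ hv.1) (h2 ▸ hv.2)
    have h3 : cc ε ((cl n m l).castSucc : Fin (n + 1)) = (cl n m l : ℕ) := by
      have h3 : (cl n m l : ℕ) % 2 = eta ε := by
        have := eta_lt ε
        unfold cc at hl1 hv
        split_ifs at hl1 hv with h4
        · have h5 : (cl n m l : ℕ) = j := by exact_mod_cast hl1
          rw [h5]; exact h4
        · omega
      exact (cc_cast ε l h3).1
    have h3' : cc ε ((cl n m l').castSucc : Fin (n + 1)) = (cl n m l' : ℕ) := by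
      have h3' : (cl n m l' : ℕ) % 2 = eta ε := by
        have := eta_lt ε
        rw [← h2] at hl1'
        unfold cc at hl1' hv
        split_ifs at hl1' hv with h4
        · have h5 : (cl n m l' : ℕ) = j := by exact_mod_cast hl1'
          rw [h5]; exact h4
        · omega
      exact (cc_cast ε l' h3').1
    have h4 := lam_top ε hn l _ h3
    have h4' := lam_top ε hn l' _ h3'
    have hlift : ∀ p q, cls n m ε p = cls n m ε q → lam n m ε p = lam n m ε q := 
      fun p q hpq => congrArg (Quot.lift (lam n m ε) (lam_RR ε hn)) hpq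
    have h5 : l = l' := by
      have h6 := (hlift _ _ hl2).symm.trans (h.trans (hlift _ _ hl2'))
      rw [h4, h4'] at h6
      refine idx_eq l l' (congrArg Prod.fst h6) ?_
      have := congrArg Prod.snd h6
      simp only at this
      exact_mod_cast this
    rw [hl2, hl2', h5]
  · have h3 : j = j' := by
      have h4 := j.2
      have h5 := j'.2
      apply Fin.ext
      unfold cc at h2 hv
      have := eta_lt ε
      split_ifs at h2 hv <;> omega
    subst h3
    apply cls_hub
    intro l hl
    apply hv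
    have := (cl n m l).2
    rw [hl]
    constructor <;> omega

/-- number of horizontal columns -/
def cols (n η : ℕ) : ℕ := #((range n).filter (fun c => c % 2 = η))

theorem cols_eq (n η : ℕ) (hη : η < 2) : cols n η = (n + 1 - η) / 2 := by
  unfold cols
  induction n with
  | zero => simp; omega
  | succ n ih =>
    rw [Finset.range_add_one, Finset.filter_insert]
    split_ifs with h
    · rw [Finset.card_insert_of_notMem (by simp), ih]; omega
    · rw [ih]; omega

theorem lp_base : 
    Nat.card (Quot (RR (finRotate (m * n)) (cl n m) (hb n m ε))) = 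
      lp (finRotate (m * n)) (cl n m) (hb n m ε) := lp_eq _ _ _

theorem base_le (hn : 0 < n) (hm : 0 < m) : 
    lp (finRotate (m * n)) (cl n m) (hb n m ε) ≤ m * cols n (eta ε) + 2 := by
  have : NeZero m := ⟨by omega⟩
  rw [← lp_base ε]
  let labs : Finset (ZMod m × ℤ) := 
    (univ ×ˢ ((range n).filter (fun c => c % 2 = eta ε)).image (fun c : ℕ => (c : ℤ))) ∪ {(0, -1)} ∪ {(0, (n : ℤ))}
  have hlabs : labs.card ≤ m * cols n (eta ε) + 2 := by
    refine (Finset.card_union_le _ _).trans ?_
    refine (Nat.add_le_add_right (Finset.card_union_le _ _) _).trans ?_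
    rw [Finset.card_singleton, Finset.card_singleton, Finset.card_product, Finset.card_univ, ZMod.card]
    have := Nat.mul_le_mul_left m (Finset.card_image_le (s := (range n).filter (fun c => c % 2 = eta ε)) 
      (f := fun c : ℕ => (c : ℤ)))
    unfold cols
    omega
  have hmem : ∀ p, lam n m ε p ∈ labs := by
    rintro ⟨k, j⟩
    unfold lam
    simp only [labs, Finset.mem_union, Finset.mem_product, Finset.mem_univ, true_and, Finset.mem_image, 
      Finset.mem_filter, Finset.mem_range, Finset.mem_singleton]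
    have hj := j.2
    have he := eta_lt ε
    by_cases hv : 0 ≤ cc ε j ∧ cc ε j < n
    · rw [if_pos hv]
      left; left
      refine ⟨(cc ε j).toNat, ⟨?_, ?_⟩, ?_⟩
      · omega
      · unfold cc at hv ⊢
        split_ifs at hv ⊢ <;> omega
      · exact Int.toNat_of_nonneg hv.1
    · rw [if_neg hv]
      unfold cc at hv ⊢
      split_ifs at hv ⊢ with h
      · right
        ext1
        · rfl
        · simp only; omega
      · left; right
        ext1
        · rfl
        · simp only; omega
  let f : Quot (RR (finRotate (m * n)) (cl n m) (hb n m ε)) → labs := 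
    Quot.lift (fun p => ⟨lam n m ε p, hmem p⟩) (fun p q h => Subtype.ext (lam_RR ε hn p q h))
  have hf : Function.Injective f := by
    rintro ⟨p⟩ ⟨q⟩ h
    exact cls_of_lam ε hn p q (congrArg Subtype.val h)
  refine (Nat.card_le_card_of_injective f hf).trans ?_
  rw [Nat.card_eq_fintype_card, Fintype.card_coe]
  exact hlabs

theorem le_base (hn : 0 < n) (hm : 0 < m) : 
    m * cols n (eta ε) ≤ lp (finRotate (m * n)) (cl n m) (hb n m ε) := by
  have : NeZero m := ⟨by omega⟩
  rw [← lp_base ε]
  have hfin : Finite (Quot (RR (finRotate (m * n)) (cl n m) (hb n m ε))) := 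
    Finite.of_surjective _ Quot.mk_surjective
  let K := (range n).filter (fun c => c % 2 = eta ε)
  have hidx : ∀ (t : ZMod m) (c : K), t.val * n + c.1 < m * n := by
    intro t c
    have h1 := (Finset.mem_filter.1 c.2).1
    rw [Finset.mem_range] at h1
    have h2 := ZMod.val_lt t
    nlinarith
  have hcl : ∀ (t : ZMod m) (c : K), (cl n m ⟨t.val * n + c.1, hidx t c⟩ : ℕ) = c.1 := by
    intro t c
    have h1 := (Finset.mem_filter.1 c.2).1
    rw [Finset.mem_range] at h1
    rw [cl_val]
    simp only
    rw [Nat.add_comm, Nat.add_mul_mod_self_right, Nat.mod_eq_of_lt h1]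
  let f : ZMod m × K → Quot (RR (finRotate (m * n)) (cl n m) (hb n m ε)) := 
    fun x => cls n m ε (finRotate (m * n) ⟨x.1.val * n + x.2.1, hidx x.1 x.2⟩, 
      (cl n m ⟨x.1.val * n + x.2.1, hidx x.1 x.2⟩).castSucc)
  have hf : Function.Injective f := by
    rintro ⟨t, c⟩ ⟨t', c'⟩ h
    have h1 : lam n m ε _ = lam n m ε _ := congrArg (Quot.lift (lam n m ε) (lam_RR ε hn)) h
    have hc := (Finset.mem_filter.1 c.2)
    have hc' := (Finset.mem_filter.1 c'.2)
    rw [Finset.mem_range] at hc hc'
    have h2 := (cc_cast ε ⟨t.val * n + c.1, hidx t c⟩ (by rw [hcl]; exact hc.2)).1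
    have h3 := (cc_cast ε ⟨t'.val * n + c'.1, hidx t' c'⟩ (by rw [hcl]; exact hc'.2)).1
    rw [lam_top ε hn _ _ h2, lam_top ε hn _ _ h3] at h1
    have h4 := congrArg Prod.fst h1
    have h5 := congrArg Prod.snd h1
    simp only at h4 h5
    rw [hcl, hcl] at h5
    have h6 : (t.val * n + c.1) / n = t.val := by
      rw [Nat.add_div_of_dvd_right (Dvd.intro_left _ rfl), Nat.mul_div_cancel _ hn, Nat.div_eq_of_lt hc.1, add_zero]
    have h7 : (t'.val * n + c'.1) / n = t'.val := by
      rw [Nat.add_div_of_dvd_right (Dvd.intro_left _ rfl), Nat.mul_div_cancel _ hn, Nat.div_eq_of_lt hc'.1, add_zero]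
    rw [h6, h7, ZMod.natCast_zmod_val, ZMod.natCast_zmod_val] at h4
    ext1
    · exact h4
    · apply Subtype.ext
      exact_mod_cast h5
  have h1 := Nat.card_le_card_of_injective f hf
  rw [Nat.card_prod, Nat.card_eq_fintype_card, ZMod.card, Nat.card_eq_fintype_card, Fintype.card_coe] at h1
  exact h1

end conn

end Pool.Agent.Q124.WV
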