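import Pool.Agent.Q124.WV.Bracket

set_option autoImplicit false
set_option linter.unusedSectionVars false

namespace Pool.Agent.Q124.WV

open Finset

section abstract

variable {X : Type} [Fintype X] [DecidableEq X]

/-- the hypotheses on the number of curves of the states -/
structure Good (near : X → X → Prop) (l : Finset X → ℕ) (B : ℕ) : Prop where
  refl : ∀ x, near x x
  symm : ∀ x y, near x y → near y x
  bd : ∀ x, ∀ U : Finset X, (∀ y ∈ U, near x y) → #U ≤ B
  pos : ∀ S, 1 ≤ l S
  up : ∀ S x, l (insert x S) ≤ l S + 1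
  far : ∀ S x, (∀ y ∈ S, ¬ near x y) → l (insert x S) + 1 = l S
  pair : ∀ x y, x ≠ y → l (insert x {y}) + 1 = l {y}

/-- pairwise far -/
def Spread (near : X → X → Prop) (S : Finset X) : Prop := ∀ x ∈ S, ∀ y ∈ S, x ≠ y → ¬ near x y

/-- near in three steps -/
def near3 (near : X → X → Prop) (x y : X) : Prop := ∃ a b, near x a ∧ near a b ∧ near b y

/-- all elements of `S` are near an element of a set with at most `q` elements -/
def Small (near : X → X → Prop) (q : ℕ) (S : Finset X) : Prop := 
  ∃ T : Finset X, #T ≤ q ∧ ∀ z ∈ S, ∃ u ∈ T, near3 near u z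

variable {near : X → X → Prop} {l : Finset X → ℕ} {B : ℕ}

theorem near3_symm (G : Good near l B) {x y : X} (h : near3 near x y) : near3 near y x := by
  obtain ⟨a, b, h1, h2, h3⟩ := h
  exact ⟨b, a, G.symm _ _ h3, G.symm _ _ h2, G.symm _ _ h1⟩

theorem near3_of (G : Good near l B) {x y : X} (h : near x y) : near3 near x y := 
  ⟨x, x, G.refl x, G.refl x, h⟩

open Classical in
theorem near3_bd (G : Good near l B) (x : X) (U : Finset X) (h : ∀ y ∈ U, near3 near x y) : #U ≤ B ^ 3 := by
  let N : X → Finset X := fun x => univ.filter (near x)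
  have hN : ∀ x, #(N x) ≤ B := fun x => G.bd x _ (fun y hy => (Finset.mem_filter.1 hy).2)
  have h1 : U ⊆ (N x).biUnion fun a => (N a).biUnion fun b => N b := by
    intro y hy
    obtain ⟨a, b, h1, h2, h3⟩ := h y hy
    simp only [Finset.mem_biUnion]
    exact ⟨a, by simp [N, h1], b, by simp [N, h2], by simp [N, h3]⟩
  refine (Finset.card_le_card h1).trans ?_
  have h2 : ∀ a, #((N a).biUnion fun b => N b) ≤ B ^ 2 := by
    intro a
    refine Finset.card_biUnion_le.trans ?_
    refine (Finset.sum_le_card_nsmul _ _ B (fun b _ => hN b)).trans ?_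
    rw [smul_eq_mul, pow_two]
    exact Nat.mul_le_mul_right _ (hN a)
  refine Finset.card_biUnion_le.trans ?_
  refine (Finset.sum_le_card_nsmul _ _ (B ^ 2) (fun b _ => h2 b)).trans ?_
  rw [smul_eq_mul, pow_succ' B 2]
  exact Nat.mul_le_mul_right _ (hN x)

theorem mono (G : Good near l B) {S T : Finset X} (h : T ⊆ S) : l S + #T ≤ l T + #S := by
  have key : ∀ U : Finset X, l (U ∪ T) + #T ≤ l T + #(U ∪ T) := by
    intro U
    induction U using Finset.induction_on with
    | empty => simp
    | insert x U hx ih =>
      rw [Finset.insert_union]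
      by_cases hx' : x ∈ U ∪ T
      · rw [Finset.insert_eq_of_mem hx']; exact ih
      · rw [Finset.card_insert_of_notMem hx']
        have := G.up (U ∪ T) x
        omega
  have := key S
  rwa [Finset.union_eq_left.2 h] at this

theorem le_add (G : Good near l B) (S : Finset X) : l S ≤ l ∅ + #S := by
  have := mono G (Finset.empty_subset S)
  simpa using this

theorem spread_subset {S T : Finset X} (hS : Spread near S) (h : T ⊆ S) : Spread near T :=
  fun x hx y hy hxy => hS x (h hx) y (h hy) hxy

/-- adding points far from everything -/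
theorem add_far (G : Good near l B) (W : Finset X) (U : Finset X) (hU : Spread near U) 
    (hW : ∀ x ∈ U, ∀ y ∈ W, ¬ near x y) : l (U ∪ W) + #U = l W := by
  induction U using Finset.induction_on with
  | empty => simp
  | insert x U hx ih =>
    have ih' := ih (spread_subset hU (Finset.subset_insert _ _)) 
      (fun z hz => hW z (Finset.mem_insert_of_mem hz))
    rw [Finset.insert_union, Finset.card_insert_of_notMem hx]
    have := G.far (U ∪ W) x (by
      intro y hy
      rw [Finset.mem_union] at hy
      rcases hy with hy | hy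
      · exact hU x (Finset.mem_insert_self _ _) y (Finset.mem_insert_of_mem hy) 
          (fun h => hx (h ▸ hy))
      · exact hW x (Finset.mem_insert_self _ _) y hy)
    omega

theorem spread_l (G : Good near l B) {S : Finset X} (hS : Spread near S) : l S + #S = l ∅ := by
  have := add_far G ∅ S hS (by simp)
  simpa using this

theorem almost_l (G : Good near l B) {T : Finset X} (hT : Spread near T) {x y : X} (hx : x ∈ T) 
    (hy : y ∉ T) (h : ∀ z ∈ T, z ≠ x → ¬ near y z) : l (insert y T) + (#T + 1) = l ∅ := by
  have hxy : y ≠ x := fun h => hy (h ▸ hx)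
  have h1 := G.pair y x hxy
  have h2 := G.far ∅ x (by simp)
  have h3 := add_far G (insert y {x}) (T.erase x) (spread_subset hT (Finset.erase_subset _ _)) (by
    intro z hz w hw
    rw [Finset.mem_erase] at hz
    rw [Finset.mem_insert, Finset.mem_singleton] at hw
    rcases hw with rfl | rfl
    · exact fun h4 => h z hz.2 hz.1 (G.symm _ _ h4)
    · exact hT z hz.2 w hx hz.1)
  have h4 : T.erase x ∪ insert y {x} = insert y T := by
    ext z
    simp only [Finset.mem_union, Finset.mem_erase, Finset.mem_insert, Finset.mem_singleton]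
    constructor
    · rintro (⟨_, h⟩ | rfl | rfl)
      · exact Or.inr h
      · exact Or.inl rfl
      · exact Or.inr hx
    · rintro (rfl | h)
      · exact Or.inr (Or.inl rfl)
      · by_cases hz : z = x
        · exact Or.inr (Or.inr hz)
        · exact Or.inl ⟨hz, h⟩
  rw [h4, Finset.card_erase_of_mem hx] at h3
  have h5 : 0 < #T := Finset.card_pos.2 ⟨x, hx⟩
  have h6 : insert x (∅ : Finset X) = {x} := rfl
  rw [h6] at h2
  omega

open Classical in
/-- sets with small defect are spread or small -/
theorem dich (G : Good near l B) (S : Finset X) (i : ℕ) (h : l ∅ + #S ≤ l S + 2 * i) : 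
    Spread near S ∨ (1 ≤ i ∧ Small near (i - 1) S) := by
  have hne : (S.powerset.filter (Spread near)).Nonempty := 
    ⟨∅, by simp [Spread]⟩
  obtain ⟨T, hT, hmax⟩ := Finset.exists_max_image _ (fun T => #T) hne
  rw [Finset.mem_filter, Finset.mem_powerset] at hT
  obtain ⟨hTS, hT⟩ := hT
  have hnear : ∀ z ∈ S, ∃ u ∈ T, near z u := by
    intro z hz
    by_cases hzT : z ∈ T
    · exact ⟨z, hzT, G.refl z⟩
    by_contra hc
    push Not at hc
    have h1 : Spread near (insert z T) := by
      intro x hx y hy hxy hn
      rw [Finset.mem_insert] at hx hy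
      rcases hx with rfl | hx
      · rcases hy with rfl | hy
        · exact hxy rfl
        · exact hc y hy hn
      · rcases hy with rfl | hy
        · exact hc x hx (G.symm _ _ hn)
        · exact hT x hx y hy hxy hn
    have h2 := hmax (insert z T) (by
      rw [Finset.mem_filter, Finset.mem_powerset]
      exact ⟨Finset.insert_subset hz hTS, h1⟩)
    rw [Finset.card_insert_of_notMem hzT] at h2
    omega
  have h1 := mono G hTS
  have h2 := spread_l G hT
  have hTi : #T ≤ i := by omega
  by_cases h3 : #T < i
  · right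
    refine ⟨by omega, T, by omega, fun z hz => ?_⟩
    obtain ⟨u, hu, hzu⟩ := hnear z hz
    exact ⟨u, hu, near3_symm G (near3_of G hzu)⟩
  · have hTi' : #T = i := by omega
    by_cases h4 : S ⊆ T
    · left; rwa [Finset.Subset.antisymm h4 hTS]
    · right
      rw [Finset.not_subset] at h4
      obtain ⟨y, hyS, hyT⟩ := h4
      obtain ⟨x, hxT, hyx⟩ := hnear y hyS
      have h5 : 0 < #T := Finset.card_pos.2 ⟨x, hxT⟩
      by_cases h6 : ∃ x' ∈ T, x' ≠ x ∧ near y x'
      · obtain ⟨x', hx', hne', hyx'⟩ := h6
        refine ⟨by omega, T.erase x, by rw [Finset.card_erase_of_mem hxT]; omega, fun z hz => ?_⟩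
        obtain ⟨u, hu, hzu⟩ := hnear z hz
        by_cases hux : u = x
        · subst hux
          exact ⟨x', Finset.mem_erase.2 ⟨hne', hx'⟩, y, u, G.symm _ _ hyx', hyx, G.symm _ _ hzu⟩
        · exact ⟨u, Finset.mem_erase.2 ⟨hux, hu⟩, near3_symm G (near3_of G hzu)⟩
      · exfalso
        push Not at h6
        have h7 := almost_l G hT hxT hyT h6
        have h8 := mono G (Finset.insert_subset hyS hTS)
        rw [Finset.card_insert_of_notMem hyT] at h8
        omega

open Classical in
/-- the number of sets with at most `q` elements -/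
theorem card_small_sets (q : ℕ) : #(univ.filter (fun T : Finset X => #T ≤ q)) ≤ (Fintype.card X + 1) ^ q := by
  have h1 : #(univ : Finset (Fin q → Option X)) = (Fintype.card X + 1) ^ q := by
    rw [Finset.card_univ, Fintype.card_fun, Fintype.card_option, Fintype.card_fin]
  rw [← h1]
  apply Finset.card_le_card_of_surjOn (fun f => univ.filter (fun x => ∃ i, f i = some x))
  intro T hT
  simp only [Finset.coe_filter, Finset.mem_univ, true_and, Set.mem_setOf_eq] at hT
  refine ⟨fun i => if h : (i : ℕ) < #T then some (T.equivFin.symm ⟨i, h⟩).1 else none, by simp, ?_⟩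
  ext x
  simp only [Finset.mem_filter, Finset.mem_univ, true_and]
  constructor
  · rintro ⟨i, hi⟩
    split_ifs at hi with h
    · simp only [Option.some.injEq] at hi
      rw [← hi]
      exact (T.equivFin.symm ⟨i, h⟩).2
  · intro hx
    refine ⟨⟨T.equivFin ⟨x, hx⟩, lt_of_lt_of_le (T.equivFin ⟨x, hx⟩).2 hT⟩, ?_⟩
    simp

open Classical in
theorem card_small (G : Good near l B) (q : ℕ) : 
    #(univ.filter (Small near q)) ≤ (Fintype.card X + 1) ^ q * 2 ^ (q * B ^ 3) := by
  let N : Finset X → Finset X := fun T => univ.filter (fun z => ∃ u ∈ T, near3 near u z)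
  have hN : ∀ T : Finset X, #(N T) ≤ #T * B ^ 3 := by
    intro T
    have h1 : N T ⊆ T.biUnion fun u => univ.filter (fun z => near3 near u z) := by
      intro z hz
      simp only [N, Finset.mem_filter, Finset.mem_univ, true_and] at hz
      simp only [Finset.mem_biUnion, Finset.mem_filter, Finset.mem_univ, true_and]
      exact hz
    refine (Finset.card_le_card h1).trans (Finset.card_biUnion_le.trans ?_)
    refine (Finset.sum_le_card_nsmul _ _ (B ^ 3) (fun u _ => near3_bd G u _ ?_)).trans (by simp)
    intro y hy
    exact (Finset.mem_filter.1 hy).2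
  have h1 : univ.filter (Small near q) ⊆ (univ.filter (fun T : Finset X => #T ≤ q)).biUnion 
      fun T => (N T).powerset := by
    intro S hS
    rw [Finset.mem_filter] at hS
    obtain ⟨T, hT, hS⟩ := hS.2
    rw [Finset.mem_biUnion]
    refine ⟨T, by simp [hT], ?_⟩
    rw [Finset.mem_powerset]
    intro z hz
    simp only [N, Finset.mem_filter, Finset.mem_univ, true_and]
    exact hS z hz
  refine (Finset.card_le_card h1).trans (Finset.card_biUnion_le.trans ?_)
  refine (Finset.sum_le_card_nsmul _ _ (2 ^ (q * B ^ 3)) ?_).trans ?_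
  · intro T hT
    rw [Finset.card_powerset]
    rw [Finset.mem_filter] at hT
    exact Nat.pow_le_pow_right (by norm_num) ((hN T).trans (Nat.mul_le_mul_right _ hT.2))
  · rw [smul_eq_mul]
    exact Nat.mul_le_mul_right _ (card_small_sets q)

open Classical in
theorem small_card (G : Good near l B) {q : ℕ} {S : Finset X} (h : Small near q S) : #S ≤ q * B ^ 3 := by
  obtain ⟨T, hT, hS⟩ := h
  have h1 : S ⊆ T.biUnion fun u => univ.filter (fun z => near3 near u z) := by
    intro z hz
    simp only [Finset.mem_biUnion, Finset.mem_filter, Finset.mem_univ, true_and]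
    exact hS z hz
  refine (Finset.card_le_card h1).trans (Finset.card_biUnion_le.trans ?_)
  refine (Finset.sum_le_card_nsmul _ _ (B ^ 3) (fun u _ => near3_bd G u _ ?_)).trans ?_
  · intro y hy
    exact (Finset.mem_filter.1 hy).2
  · rw [smul_eq_mul]
    exact Nat.mul_le_mul_right _ hT

theorem not_spread_small (G : Good near l B) {S : Finset X} (h : ¬ Spread near S) : 
    1 ≤ #S ∧ Small near (#S - 1) S := by
  unfold Spread at h
  push Not at h
  obtain ⟨x, hx, y, hy, hxy, hn⟩ := h
  have h5 : 0 < #S := Finset.card_pos.2 ⟨x, hx⟩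
  refine ⟨h5, S.erase x, by rw [Finset.card_erase_of_mem hx], fun z hz => ?_⟩
  by_cases hzx : z = x
  · subst hzx
    exact ⟨y, Finset.mem_erase.2 ⟨hxy.symm, hy⟩, near3_of G (G.symm _ _ hn)⟩
  · exact ⟨z, Finset.mem_erase.2 ⟨hzx, hz⟩, near3_of G (G.refl z)⟩

end abstract

end Pool.Agent.Q124.WV
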