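import Pool.Agent.H891R2.Jones.Diagram

/-!
# Closures of braid words, weaving knots, twist numbers
-/

set_option autoImplicit false

namespace Pool.Agent.Q124.WV

open LaurentPolynomial Pool.Agent.H891R2.Jones

/-- The closure of a braid word of length `L` on the `n + 1` strands `0, …, n`, as an oriented link
diagram.  The letter `w k = (b, i)` is `σ_i` (`b = true`) or `σ_i⁻¹` (`b = false`) and crosses the
strands at the places `i` and `i + 1`.  The marked point `(k, j)` lies on the strand at the place `j`
just before (below) the letter number `k`; `finRotate L k` is `k + 1`, and `0` for `k = L - 1`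
(closure).  A strand which does not take part in the letter `k` is continued by an arc.  The four
marked points around the crossing number `k` are lower right, upper right, upper left, lower left
for `σ_i` (the over-strand runs from lower left to upper right) and lower left, lower right, upper
right, upper left for `σ_i⁻¹` (the over-strand runs from lower right to upper left); all strands run
upwards. -/
def closedBraid {n L : ℕ} (w : Fin L → Bool × Fin n) : Diagram (Fin L × Fin (n + 1)) where
  arcs := (List.finRange L).flatMap fun k =>
    ((List.finRange (n + 1)).filter fun j => j ≠ (w k).2.castSucc ∧ j ≠ (w k).2.succ).map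
      fun j => ((k, j), (finRotate L k, j))
  crossings := List.ofFn fun k =>
    if (w k).1 then
      ⟨(k, (w k).2.succ), (finRotate L k, (w k).2.succ), (finRotate L k, (w k).2.castSucc),
        (k, (w k).2.castSucc), true, false⟩
    else
      ⟨(k, (w k).2.castSucc), (k, (w k).2.succ), (finRotate L k, (w k).2.succ),
        (finRotate L k, (w k).2.castSucc), true, true⟩

/-- the word `(σ_0 σ_1⁻¹ σ_2 σ_3⁻¹ ⋯ σ_{n-1}^{±1})^m` on `n + 1` strands -/
def weavingWord (n m : ℕ) : Fin (m * n) → Bool × Fin n :=
  fun k => (decide ((k.modNat : ℕ) % 2 = 0), k.modNat)

/-- the diagram of the weaving link `W(n + 1, m)`, the closure of `weavingWord n m` -/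
def weaving (n m : ℕ) : Diagram (Fin (m * n) × Fin (n + 1)) := closedBraid (weavingWord n m)

/-- the `k`-th twist number of the Jones polynomial, read off from the normalised bracket `f`, which
is the Jones polynomial in the variable `A` with `t = A⁻⁴` (so that an exponent step of `1` in `t` is
an exponent step of `4` in `A`): the sum of the absolute values of the `k`-th coefficients counted
from the two extreme non-zero coefficients -/
noncomputable def twistNumber (k : ℕ) (f : ℤ[T;T⁻¹]) : ℤ :=
  |f.coeff (sInf {a : ℤ | f.coeff a ≠ 0} + 4 * k)| + |f.coeff (sSup {a : ℤ | f.coeff a ≠ 0} - 4 * k)|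

end Pool.Agent.Q124.WV
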