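import Pool.Agent.Q124.WV.Count

set_option autoImplicit false
set_option linter.unusedSectionVars false

namespace Pool.Agent.Q124.WV

open Finset

section estimate

variable {X : Type} [Fintype X] [DecidableEq X]
variable {near : X → X → Prop} {l : Finset X → ℕ} {B : ℕ}

open Classical in
theorem err (G : Good near l B) (j : ℕ) (Q : ℕ) (hQ : Fintype.card X + 1 ≤ Q) (P : Finset X → Prop) [DecidablePred P] (f : Finset X → ℤ) 
    (hf : ∀ S, P S → |f S| ≤ ∑ i ∈ Icc 1 j, if Small near (i - 1) S then (Q : ℤ) ^ (j - i) else 0) : 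
    |∑ S ∈ univ.filter P, f S| ≤ j * 2 ^ (j * B ^ 3) * Q ^ (j - 1) := by
  refine (Finset.abs_sum_le_sum_abs _ _).trans ?_
  refine (Finset.sum_le_sum fun S hS => hf S (Finset.mem_filter.1 hS).2).trans ?_
  rw [Finset.sum_comm]
  have h1 : ∀ i ∈ Icc 1 j, ∑ S ∈ univ.filter P, (if Small near (i - 1) S then (Q : ℤ) ^ (j - i) else 0) ≤ 
      2 ^ (j * B ^ 3) * Q ^ (j - 1) := by
    intro i hi
    rw [Finset.mem_Icc] at hi
    have h2 : ∑ S ∈ univ.filter P, (if Small near (i - 1) S then (Q : ℤ) ^ (j - i) else 0) ≤ 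
        ∑ S : Finset X, (if Small near (i - 1) S then (Q : ℤ) ^ (j - i) else 0) := by
      apply Finset.sum_le_sum_of_subset_of_nonneg (Finset.filter_subset _ _)
      intro S _ _
      split_ifs
      · positivity
      · exact le_rfl
    refine h2.trans ?_
    rw [← Finset.sum_filter, Finset.sum_const, nsmul_eq_mul]
    have h3 := card_small G (i - 1)
    have h4 : (Fintype.card X + 1) ^ (i - 1) * 2 ^ ((i - 1) * B ^ 3) ≤ Q ^ (i - 1) * 2 ^ (j * B ^ 3) := by
      apply Nat.mul_le_mul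
      · exact Nat.pow_le_pow_left hQ _
      · exact Nat.pow_le_pow_right (by norm_num) (Nat.mul_le_mul_right _ (by omega))
    have h5 : ((#(univ.filter (Small near (i - 1))) : ℕ) : ℤ) ≤ (Q : ℤ) ^ (i - 1) * 2 ^ (j * B ^ 3) := by
      exact_mod_cast h3.trans h4
    calc ((#(univ.filter (Small near (i - 1))) : ℕ) : ℤ) * (Q : ℤ) ^ (j - i) ≤ 
        ((Q : ℤ) ^ (i - 1) * 2 ^ (j * B ^ 3)) * (Q : ℤ) ^ (j - i) := by gcongr
      _ = 2 ^ (j * B ^ 3) * ((Q : ℤ) ^ (i - 1) * (Q : ℤ) ^ (j - i)) := by ring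
      _ = 2 ^ (j * B ^ 3) * Q ^ (j - 1) := by
        rw [← pow_add]
        congr 2
        omega
  refine (Finset.sum_le_sum h1).trans ?_
  rw [Finset.sum_const, nsmul_eq_mul, Nat.card_Icc]
  have : j + 1 - 1 = j := by omega
  rw [this]
  exact le_of_eq (by ring)

/-- main term of the set sizes -/
def gg (s j i : ℕ) : ℤ := if i ≤ j then (-1) ^ i * ((s - 1 - i).choose (j - i) : ℤ) else 0

theorem gg_abs (s j i Q : ℕ) (hQ : s ≤ Q) : |gg s j i| ≤ if i ≤ j then (Q : ℤ) ^ (j - i) else 0 := by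
  unfold gg
  split_ifs with h
  · rw [abs_mul, abs_pow, abs_neg, abs_one, one_pow, one_mul, Nat.abs_cast]
    have h1 : (s - 1 - i).choose (j - i) ≤ Q ^ (j - i) := 
      (Nat.choose_le_pow _ _).trans (Nat.pow_le_pow_left (by omega) _)
    exact_mod_cast h1
  · simp

theorem tm_abs (G : Good near l B) (j Q : ℕ) (S : Finset X) (hQ : l ∅ + #S ≤ Q) : 
    |tm (l ∅) l j S| ≤ if (l ∅ + #S - l S) / 2 ≤ j then (Q : ℤ) ^ (j - (l ∅ + #S - l S) / 2) else 0 := by
  unfold tm
  have h0 := le_add G S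
  split_ifs with h1 h2 h2
  · rw [abs_mul, abs_pow, abs_neg, abs_one, one_pow, one_mul, Nat.abs_cast]
    have h1 : (l S - 1).choose (j - (l ∅ + #S - l S) / 2) ≤ Q ^ (j - (l ∅ + #S - l S) / 2) := 
      (Nat.choose_le_pow _ _).trans (Nat.pow_le_pow_left (by omega) _)
    exact_mod_cast h1
  · exact absurd h1.2 h2
  · rw [abs_zero]; positivity
  · rw [abs_zero]

theorem tm_spread (G : Good near l B) (j : ℕ) (S : Finset X) (hS : Spread near S) : 
    (-1) ^ (l ∅ - 1) * tm (l ∅) l j S = gg (l ∅) j #S := by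
  have h1 := spread_l G hS
  have h2 := G.pos S
  unfold tm gg
  have h3 : l ∅ + #S - l S = 2 * #S := by omega
  rw [h3]
  have h4 : 2 * #S / 2 = #S := by omega
  rw [h4]
  by_cases h5 : #S ≤ j
  · rw [if_pos ⟨by omega, h5⟩, if_pos h5, ← mul_assoc, ← pow_add]
    have h6 : l S - 1 = l ∅ - 1 - #S := by omega
    rw [h6]
    congr 1
    have h7 : l ∅ - 1 + (l ∅ - 1 - #S) = #S + 2 * (l ∅ - 1 - #S) := by omega
    rw [h7, pow_add, pow_mul]
    norm_num
  · rw [if_neg (by tauto), if_neg h5, mul_zero]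

open Classical in
theorem le_sum_small (j Q i : ℕ) (S : Finset X) (h1 : 1 ≤ i) (h2 : i ≤ j) (h3 : Small near (i - 1) S) : 
    (Q : ℤ) ^ (j - i) ≤ ∑ i ∈ Icc 1 j, if Small near (i - 1) S then (Q : ℤ) ^ (j - i) else 0 := by
  have h4 : ∀ a ∈ Icc 1 j, (0 : ℤ) ≤ if Small near (a - 1) S then (Q : ℤ) ^ (j - a) else 0 := by
    intro a _
    split_ifs
    · positivity
    · exact le_rfl
  have h5 := Finset.single_le_sum h4 (Finset.mem_Icc.2 ⟨h1, h2⟩)
  rwa [if_pos h3] at h5

open Classical in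
theorem estimate (G : Good near l B) (j : ℕ) (Q : ℕ) 
    (hQ : Fintype.card X + 1 + l ∅ + j * B ^ 3 ≤ Q) : 
    |(-1) ^ (l ∅ - 1) * (∑ S : Finset X, tm (l ∅) l j S) - 
      ∑ i ∈ range (j + 1), ((Fintype.card X).choose i : ℤ) * gg (l ∅) j i| ≤ 
        2 * (j * 2 ^ (j * B ^ 3) * Q ^ (j - 1)) := by
  have h1 : ∑ S : Finset X, gg (l ∅) j #S = 
      ∑ i ∈ range (j + 1), ((Fintype.card X).choose i : ℤ) * gg (l ∅) j i := by
    have h2 := Finset.sum_powerset_apply_card (fun i => gg (l ∅) j i) (x := (univ : Finset X))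
    rw [Finset.powerset_univ, Finset.card_univ] at h2
    rw [h2]
    have h3 : ∀ M : ℕ, Fintype.card X ≤ M → j ≤ M → 
        ∑ i ∈ range (M + 1), ((Fintype.card X).choose i : ℤ) * gg (l ∅) j i = 
        ∑ i ∈ range (Fintype.card X + 1), (Fintype.card X).choose i • gg (l ∅) j i := by
      intro M hM _
      symm
      rw [Finset.sum_congr rfl (fun i _ => nsmul_eq_mul _ _)]
      apply Finset.sum_subset
      · intro x hx
        rw [Finset.mem_range] at hx ⊢
        omega
      · intro x _ hx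
        rw [Finset.mem_range] at hx
        rw [Nat.choose_eq_zero_of_lt (by omega)]
        simp
    have h4 : ∀ M : ℕ, j ≤ M → 
        ∑ i ∈ range (M + 1), ((Fintype.card X).choose i : ℤ) * gg (l ∅) j i = 
        ∑ i ∈ range (j + 1), ((Fintype.card X).choose i : ℤ) * gg (l ∅) j i := by
      intro M hM
      symm
      apply Finset.sum_subset
      · intro x hx
        rw [Finset.mem_range] at hx ⊢
        omega
      · intro x _ hx
        rw [Finset.mem_range] at hx
        unfold gg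
        rw [if_neg (by omega), mul_zero]
    rw [← h3 (Fintype.card X + j) (by omega) (by omega), h4 (Fintype.card X + j) (by omega)]
  have h2 : ∀ f : Finset X → ℤ, ∑ S : Finset X, f S = ∑ S ∈ univ.filter (Spread near), f S + 
      ∑ S ∈ univ.filter (fun S => ¬ Spread near S), f S := 
    fun f => (Finset.sum_filter_add_sum_filter_not _ _ _).symm
  have h3 : ∑ S ∈ univ.filter (Spread near), (-1) ^ (l ∅ - 1) * tm (l ∅) l j S = 
      ∑ S ∈ univ.filter (Spread near), gg (l ∅) j #S := 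
    Finset.sum_congr rfl fun S hS => tm_spread G j S (Finset.mem_filter.1 hS).2
  have h4 : |∑ S ∈ univ.filter (fun S => ¬ Spread near S), (-1) ^ (l ∅ - 1) * tm (l ∅) l j S| ≤ 
      j * 2 ^ (j * B ^ 3) * Q ^ (j - 1) := by
    apply err G j Q (by omega)
    intro S hS
    rw [abs_mul, abs_pow, abs_neg, abs_one, one_pow, one_mul]
    by_cases h5 : (l ∅ + #S - l S) % 2 = 0 ∧ (l ∅ + #S - l S) / 2 ≤ j
    · set i := (l ∅ + #S - l S) / 2 with hi
      have h0 := le_add G S
      have h6 : l ∅ + #S ≤ l S + 2 * i := by omega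
      rcases dich G S i h6 with h7 | ⟨h7, h8⟩
      · exact absurd h7 hS
      · have h9 := small_card G h8
        have h10 : (i - 1) * B ^ 3 ≤ j * B ^ 3 := Nat.mul_le_mul_right _ (by omega)
        have h11 := tm_abs G j Q S (by omega)
        rw [← hi, if_pos h5.2] at h11
        refine h11.trans ?_
        exact le_sum_small j Q i S h7 h5.2 h8
    · unfold tm
      rw [if_neg h5, abs_zero]
      apply Finset.sum_nonneg
      intro i _
      split_ifs
      · positivity
      · exact le_rfl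
  have h5 : |∑ S ∈ univ.filter (fun S => ¬ Spread near S), gg (l ∅) j #S| ≤ 
      j * 2 ^ (j * B ^ 3) * Q ^ (j - 1) := by
    apply err G j Q (by omega)
    intro S hS
    obtain ⟨h6, h7⟩ := not_spread_small G hS
    refine (gg_abs (l ∅) j #S Q (by omega)).trans ?_
    split_ifs with h8
    · exact le_sum_small j Q #S S h6 h8 h7
    · apply Finset.sum_nonneg
      intro i _
      split_ifs
      · positivity
      · exact le_rfl
  rw [← h1, Finset.mul_sum, h2, h2 (fun S => gg (l ∅) j #S), h3]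
  have h6 : ∀ a b c : ℤ, a + b - (a + c) = b - c := fun a b c => by ring
  rw [h6]
  refine (abs_sub _ _).trans ?_
  linarith

end estimate

end Pool.Agent.Q124.WV
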