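import Pool.Agent.Q124.WV.Conn

set_option autoImplicit false
set_option linter.unusedSectionVars false

namespace Pool.Agent.Q124.WV

open Finset LaurentPolynomial Pool.Agent.H891R2.Jones Pool.Agent.H891R2.MT.T2 Filter Topology

section good

variable {n m : ℕ} (ε : Bool)

theorem ls_eq (S : Finset (Fin (m * n))) : 
    ls (weavingWord n m) ε S = lp (finRotate (m * n)) (cl n m) (pat (hb n m ε) S) := rfl

theorem cut (hn : 1 < n) (S : Finset (Fin (m * n))) (x : Fin (m * n)) (hx : x ∉ S) (v : ZMod m × ℤ) 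
    (hv : inc n m ε v x) (hm : 1 < m) (hS : ∀ y ∈ S, ¬ inc n m ε v y) : 
    ls (weavingWord n m) ε (insert x S) + 1 = ls (weavingWord n m) ε S := by
  rw [ls_eq, ls_eq, pat_insert _ _ _ hx]
  refine lp_cut _ _ (hb n m ε) _ x (lam n m ε) (lam_st ε (by omega)) (fun u => u = v) ?_ ?_
  · intro l hl
    have hlS : l ∈ S := by
      by_contra h
      apply hl
      unfold pat
      rw [if_neg h]
    have h1 := hS l hlS
    unfold inc at h1
    push Not at h1
    rcases ends ε hn l with ⟨h2, h3⟩ | ⟨h2, h3⟩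
    · rw [h2, h3]
      exact ⟨fun h => absurd h h1.1, fun h => absurd h h1.2⟩
    · rw [h2, h3]
      exact ⟨fun h => absurd h h1.2, fun h => absurd h h1.1⟩
  · have h1 := eA_ne_eB ε hn hm x
    rcases ends ε hn x with ⟨h2, h3⟩ | ⟨h2, h3⟩
    · rw [h2, h3]
      rintro ⟨h4, h5⟩
      rcases hv with hv | hv
      · exact h1 (hv.trans (h4 hv).symm)
      · exact h1 ((h5 hv).trans hv.symm)
    · rw [h2, h3]
      rintro ⟨h4, h5⟩
      rcases hv with hv | hv
      · exact h1 (hv.trans (h5 hv).symm)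
      · exact h1 ((h4 hv).trans hv.symm)

theorem good (hn : 1 < n) (hm : 2 < m) : Good (near n m) (ls (weavingWord n m) ε) (3 * n) where
  refl := near_refl
  symm := near_symm
  bd := near_bd
  pos := ls_pos _ (Nat.mul_pos (by omega) (by omega)) ε
  up := ls_insert _ ε
  far := by
    intro S x hS
    obtain ⟨v, hv, hv'⟩ := exists_inner ε hn x
    refine cut ε hn S x (fun h => hS x h (near_refl x)) v hv (by omega) ?_
    intro y hy h
    exact hS y hy (hv' y h)
  pair := by
    intro x y hxy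
    obtain ⟨v, hv, hv'⟩ := simple ε hn hm x y hxy
    refine cut ε hn {y} x (by simpa using hxy) v hv (by omega) ?_
    intro z hz
    rw [Finset.mem_singleton] at hz
    subst hz
    exact hv'

theorem base_tendsto (hn : 0 < n) : 
    Tendsto (fun m => ((ls (weavingWord n m) ε ∅ : ℕ) : ℝ) / m) atTop (𝓝 (cols n (eta ε) : ℝ)) := by
  have h1 : Tendsto (fun m : ℕ => (cols n (eta ε) : ℝ) + 2 / m) atTop (𝓝 (cols n (eta ε) + 0 : ℝ)) := 
    tendsto_const_nhds.add (tendsto_const_div_atTop_nhds_zero_nat _)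
  rw [add_zero] at h1
  refine tendsto_of_tendsto_of_tendsto_of_le_of_le' tendsto_const_nhds h1 ?_ ?_
  · filter_upwards [eventually_gt_atTop 0] with m hm
    have h2 := le_base ε hn hm
    rw [ls_eq, pat_empty]
    have hm' : (0 : ℝ) < m := by exact_mod_cast hm
    rw [le_div_iff₀ hm', mul_comm (cols n (eta ε) : ℝ)]
    exact_mod_cast h2
  · filter_upwards [eventually_gt_atTop 0] with m hm
    have h2 := base_le ε hn hm
    rw [ls_eq, pat_empty]
    have hm' : (0 : ℝ) < m := by exact_mod_cast hm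
    rw [div_le_iff₀ hm', add_mul, div_mul_cancel₀ _ hm'.ne', mul_comm (cols n (eta ε) : ℝ)]
    exact_mod_cast h2

/-- the `j`-th coefficient from the end `ε` -/
noncomputable def co (n m : ℕ) (ε : Bool) (j : ℕ) : ℤ := 
  ∑ S, tm (ls (weavingWord n m) ε ∅) (ls (weavingWord n m) ε) j S

theorem co_tendsto (hn : 1 < n) (j : ℕ) (hj : 1 ≤ j) : 
    Tendsto (fun m => ((|co n m ε j| : ℤ) : ℝ) / (m : ℝ) ^ j) atTop 
      (𝓝 (|(cols n (eta ε) : ℝ) - n| ^ j / j.factorial)) := 
  tends n (3 * n) _ (fun m => ls (weavingWord n m) ε) 3 (fun m hm => ⟨_, good ε hn (by omega)⟩) 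
    (base_tendsto ε (by omega)) j hj

theorem co_zero (hn : 1 < n) (hm : 2 < m) : co n m ε 0 ≠ 0 := by
  have h := estimate (good ε hn hm) 0 _ le_rfl
  intro h0
  unfold co at h0
  rw [h0] at h
  simp [gg] at h

/-- extreme exponent -/
noncomputable def ex (n m : ℕ) (ε : Bool) : ℤ := ((m * n : ℕ) : ℤ) + 2 * ((ls (weavingWord n m) ε ∅ : ℤ) - 1)

theorem co_eq (hn : 1 < n) (hm : 2 < m) (j : ℕ) : 
    (weaving n m).bracket.coeff (sgn ε * (ex n m ε - 4 * j)) = co n m ε j := 
  bracket_coeff_tm (weavingWord n m) (Nat.mul_pos (by omega) (by omega)) ε j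

theorem co_large (hn : 1 < n) (hm : 2 < m) (a : ℤ) (ha : ex n m ε < a) : 
    (weaving n m).bracket.coeff (sgn ε * a) = 0 := 
  bracket_coeff_zero (weavingWord n m) ε a ha (Nat.mul_pos (by omega) (by omega))

end good

section final

variable {n m : ℕ}

theorem fPoly_coeff {P : Type} (D : Diagram P) (a : ℤ) : 
    D.fPoly.coeff a = (if Even D.writhe then 1 else -1) * D.bracket.coeff (a + 3 * D.writhe) := by
  unfold Diagram.fPoly
  by_cases hw : Even D.writhe
  · rw [if_pos hw, if_pos hw, one_mul, one_mul, coeff_T_mul]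
    congr 1; ring
  · rw [if_neg hw, if_neg hw]
    have e0 : (-1 : ℤ[T;T⁻¹]) * T (-3 * D.writhe) * D.bracket = -(T (-3 * D.writhe) * D.bracket) := by ring
    rw [e0]
    have : (-(T (-3 * D.writhe) * D.bracket)).coeff a = -((T (-3 * D.writhe) * D.bracket).coeff a) := rfl
    rw [this, coeff_T_mul, neg_one_mul]
    congr 2; ring

theorem fPoly_abs {P : Type} (D : Diagram P) (a : ℤ) : 
    |D.fPoly.coeff a| = |D.bracket.coeff (a + 3 * D.writhe)| := by
  rw [fPoly_coeff, abs_mul]
  split_ifs <;> simp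

theorem fPoly_ne {P : Type} (D : Diagram P) (a : ℤ) : 
    D.fPoly.coeff a ≠ 0 ↔ D.bracket.coeff (a + 3 * D.writhe) ≠ 0 := by
  rw [← abs_pos, fPoly_abs, abs_pos]

theorem twist_eq (hn : 1 < n) (hm : 2 < m) (k : ℕ) : 
    twistNumber k (weaving n m).fPoly = |co n m true k| + |co n m false k| := by
  set D := weaving n m with hD
  have hhi : IsGreatest {a : ℤ | D.fPoly.coeff a ≠ 0} (ex n m true - 3 * D.writhe) := by
    constructor
    · rw [Set.mem_ofPred_eq, fPoly_ne, sub_add_cancel]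
      have h1 := co_eq true hn hm 0
      have h2 := co_zero true hn hm
      rw [← h1] at h2
      simpa [sgn] using h2
    · intro a ha
      rw [Set.mem_ofPred_eq, fPoly_ne] at ha
      by_contra hc
      apply ha
      have h1 := co_large true hn hm (a + 3 * D.writhe) (by linarith)
      simpa [sgn] using h1
  have hlo : IsLeast {a : ℤ | D.fPoly.coeff a ≠ 0} (-ex n m false - 3 * D.writhe) := by
    constructor
    · rw [Set.mem_ofPred_eq, fPoly_ne, sub_add_cancel]
      have h1 := co_eq false hn hm 0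
      have h2 := co_zero false hn hm
      rw [← h1] at h2
      simpa [sgn] using h2
    · intro a ha
      rw [Set.mem_ofPred_eq, fPoly_ne] at ha
      by_contra hc
      apply ha
      have h1 := co_large false hn hm (-(a + 3 * D.writhe)) (by linarith)
      simpa [sgn] using h1
  unfold twistNumber
  rw [hhi.csSup_eq, hlo.csInf_eq, fPoly_abs, fPoly_abs, add_comm]
  congr 1
  · rw [← co_eq true hn hm k]
    congr 2
    unfold sgn
    simp only [if_true]
    ring
  · rw [← co_eq false hn hm k]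
    congr 2
    unfold sgn
    simp only [Bool.false_eq_true, if_false]
    ring

theorem main (n : ℕ) (hn : 2 ≤ n) (k : ℕ) (hk : 1 ≤ k) : 
    Tendsto (fun m : ℕ => (twistNumber k (weaving n m).fPoly : ℝ) / 
      ((((n / 2 + n % 2 : ℕ) : ℝ) ^ k + ((n / 2 : ℕ) : ℝ) ^ k) * (m : ℝ) ^ k / k.factorial)) atTop (𝓝 1) := by
  have h1 := co_tendsto true (show 1 < n by omega) k hk
  have h2 := co_tendsto false (show 1 < n by omega) k hk
  have e1 : |(cols n (eta true) : ℝ) - n| = ((n / 2 + n % 2 : ℕ) : ℝ) := by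
    have h3 : cols n (eta true) = n / 2 := by
      rw [cols_eq _ _ (eta_lt _)]; simp [eta]
    have h4 : n = n / 2 + (n / 2 + n % 2) := by omega
    have h5 : (n : ℝ) = (n / 2 : ℕ) + ((n / 2 + n % 2 : ℕ) : ℝ) := by exact_mod_cast h4
    have h6 : ((n / 2 : ℕ) : ℝ) - n = -((n / 2 + n % 2 : ℕ) : ℝ) := by linarith
    rw [h3, h6, abs_neg, Nat.abs_cast]
  have e2 : |(cols n (eta false) : ℝ) - n| = ((n / 2 : ℕ) : ℝ) := by
    have h3 : cols n (eta false) = (n + 1) / 2 := by
      rw [cols_eq _ _ (eta_lt _)]; simp [eta]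
    have h4 : n = (n + 1) / 2 + n / 2 := by omega
    have h5 : (n : ℝ) = ((n + 1) / 2 : ℕ) + ((n / 2 : ℕ) : ℝ) := by exact_mod_cast h4
    have h6 : (((n + 1) / 2 : ℕ) : ℝ) - n = -((n / 2 : ℕ) : ℝ) := by linarith
    rw [h3, h6, abs_neg, Nat.abs_cast]
  rw [e1] at h1
  rw [e2] at h2
  have hr : (1 : ℝ) ≤ ((n / 2 : ℕ) : ℝ) := by
    have : 1 ≤ n / 2 := by omega
    exact_mod_cast this
  have hpos : (0 : ℝ) < (((n / 2 + n % 2 : ℕ) : ℝ) ^ k + ((n / 2 : ℕ) : ℝ) ^ k) / k.factorial := by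
    have h3 : (0 : ℝ) < ((n / 2 : ℕ) : ℝ) ^ k := by positivity
    positivity
  have h3 := (h1.add h2).div_const ((((n / 2 + n % 2 : ℕ) : ℝ) ^ k + ((n / 2 : ℕ) : ℝ) ^ k) / k.factorial)
  rw [← add_div, div_self hpos.ne'] at h3
  refine h3.congr' ?_
  filter_upwards [eventually_gt_atTop 2] with m hm
  rw [twist_eq (by omega) hm]
  have hm' : (m : ℝ) ≠ 0 := by positivity
  have hf : (k.factorial : ℝ) ≠ 0 := by positivity
  push_cast
  field_simp

end final

end Pool.Agent.Q124.WV
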