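import Pool.Agent.Q124.WV.Est

set_option autoImplicit false
set_option linter.unusedSectionVars false

namespace Pool.Agent.Q124.WV

open Finset Filter Topology

theorem choose_succ_real (u i : ℕ) : ((u.choose (i + 1) : ℕ) : ℝ) = (u.choose i : ℝ) * ((u : ℝ) - i) / (i + 1) := by
  have h : ((u.choose (i + 1) : ℕ) : ℝ) * (i + 1) = (u.choose i : ℝ) * ((u : ℝ) - i) := by
    by_cases hu : i ≤ u
    · have := Nat.choose_succ_right_eq u i
      rw [← Nat.cast_sub hu]
      exact_mod_cast this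
    · rw [Nat.choose_eq_zero_of_lt (show u < i by omega), Nat.choose_eq_zero_of_lt (show u < i + 1 by omega)]
      simp
  field_simp
  exact h

theorem tendsto_choose {u : ℕ → ℕ} {α : ℝ} (h : Tendsto (fun m => (u m : ℝ) / m) atTop (𝓝 α)) (i : ℕ) :
    Tendsto (fun m => ((u m).choose i : ℝ) / (m : ℝ) ^ i) atTop (𝓝 (α ^ i / i.factorial)) := by
  induction i with
  | zero => simp
  | succ i ih =>
    have h1 : Tendsto (fun m : ℕ => (i : ℝ) / m) atTop (𝓝 0) := tendsto_const_div_atTop_nhds_zero_nat _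
    have h2 := (ih.mul (h.sub h1)).div_const ((i : ℝ) + 1)
    have h3 : α ^ i / i.factorial * (α - 0) / (i + 1) = α ^ (i + 1) / (i + 1).factorial := by
      rw [Nat.factorial_succ]
      push_cast
      have : (i.factorial : ℝ) ≠ 0 := by positivity
      field_simp
      ring
    rw [h3] at h2
    refine h2.congr' ?_
    filter_upwards [eventually_gt_atTop 0] with m hm
    rw [choose_succ_real]
    have : (m : ℝ) ≠ 0 := by positivity
    field_simp
    rw [pow_succ]
    ring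

theorem tendsto_sub_nat {u : ℕ → ℕ} {α : ℝ} (h : Tendsto (fun m => (u m : ℝ) / m) atTop (𝓝 α)) (c : ℕ) :
    Tendsto (fun m => ((u m - c : ℕ) : ℝ) / m) atTop (𝓝 α) := by
  have h1 : Tendsto (fun m : ℕ => (c : ℝ) / m) atTop (𝓝 0) := tendsto_const_div_atTop_nhds_zero_nat _
  have h2 := h.sub h1
  rw [sub_zero] at h2
  refine tendsto_of_tendsto_of_tendsto_of_le_of_le h2 h ?_ ?_
  · intro m
    dsimp only
    rw [← sub_div]
    apply div_le_div_of_nonneg_right _ (Nat.cast_nonneg m)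
    have : u m ≤ u m - c + c := by omega
    have h3 : (u m : ℝ) ≤ ((u m - c : ℕ) : ℝ) + c := by exact_mod_cast this
    linarith
  · intro m
    apply div_le_div_of_nonneg_right _ (Nat.cast_nonneg m)
    exact Nat.cast_le.2 (Nat.sub_le _ _)

theorem binom (α β : ℝ) (j : ℕ) : 
    ∑ i ∈ range (j + 1), (-1) ^ i * (β ^ i / i.factorial) * (α ^ (j - i) / (j - i).factorial) = 
      (α - β) ^ j / j.factorial := by
  have h1 : α - β = -β + α := by ring
  rw [h1, add_pow, Finset.sum_div]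
  refine Finset.sum_congr rfl fun i hi => ?_
  rw [Finset.mem_range] at hi
  have h2 : (j.choose i : ℝ) = j.factorial / (i.factorial * (j - i).factorial) := 
    Nat.cast_choose ℝ (by omega)
  rw [h2]
  have h3 : (i.factorial : ℝ) ≠ 0 := by positivity
  have h4 : (j.factorial : ℝ) ≠ 0 := by positivity
  have h5 : ((j - i).factorial : ℝ) ≠ 0 := by positivity
  rw [neg_pow]
  field_simp
  rw [neg_pow β i]
  ring

theorem tends (n B : ℕ) (α : ℝ) (l : ∀ m : ℕ, Finset (Fin (m * n)) → ℕ) (m0 : ℕ) 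
    (hG : ∀ m, m0 ≤ m → ∃ near, Good near (l m) B) 
    (hs : Tendsto (fun m => ((l m ∅ : ℕ) : ℝ) / m) atTop (𝓝 α)) (j : ℕ) (hj : 1 ≤ j) :
    Tendsto (fun m => ((|∑ S, tm (l m ∅) (l m) j S| : ℤ) : ℝ) / (m : ℝ) ^ j) atTop 
      (𝓝 (|α - n| ^ j / j.factorial)) := by
  have hn : Tendsto (fun m : ℕ => ((m * n : ℕ) : ℝ) / m) atTop (𝓝 n) := by
    refine tendsto_const_nhds.congr' ?_
    filter_upwards [eventually_gt_atTop 0] with m hm
    have : (m : ℝ) ≠ 0 := by positivity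
    push_cast
    field_simp
  -- main term
  have hmain : Tendsto (fun m => ((∑ i ∈ range (j + 1), ((m * n).choose i : ℤ) * gg (l m ∅) j i : ℤ) : ℝ) / 
      (m : ℝ) ^ j) atTop (𝓝 ((α - n) ^ j / j.factorial)) := by
    rw [← binom]
    have h1 : ∀ i ∈ range (j + 1), Tendsto (fun m => (-1 : ℝ) ^ i * (((m * n).choose i : ℝ) / (m : ℝ) ^ i) * 
        (((l m ∅ - 1 - i).choose (j - i) : ℝ) / (m : ℝ) ^ (j - i))) atTop 
        (𝓝 ((-1) ^ i * ((n : ℝ) ^ i / i.factorial) * (α ^ (j - i) / (j - i).factorial))) := by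
      intro i _
      exact (tendsto_const_nhds.mul (tendsto_choose hn i)).mul 
        (tendsto_choose (tendsto_sub_nat (tendsto_sub_nat hs 1) i) (j - i))
    refine (tendsto_finsetSum _ h1).congr' ?_
    filter_upwards [eventually_gt_atTop 0] with m hm
    rw [Int.cast_sum, Finset.sum_div]
    refine Finset.sum_congr rfl fun i hi => ?_
    rw [Finset.mem_range] at hi
    have hm' : (m : ℝ) ≠ 0 := by positivity
    have h2 : (m : ℝ) ^ j = (m : ℝ) ^ i * (m : ℝ) ^ (j - i) := by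
      rw [← pow_add]; congr 1; omega
    unfold gg
    rw [if_pos (by omega), h2]
    push_cast
    field_simp
  -- error term
  have hQ : ∃ K : ℝ, ∀ᶠ m : ℕ in atTop, ((m * n + 1 + l m ∅ + j * B ^ 3 : ℕ) : ℝ) ≤ K * m := by
    refine ⟨n + 1 + (α + 1) + j * B ^ 3, ?_⟩
    filter_upwards [eventually_gt_atTop 0, hs.eventually (gt_mem_nhds (show α < α + 1 by linarith))] with m hm h1
    have hm1 : (1 : ℝ) ≤ m := by exact_mod_cast hm
    rw [div_lt_iff₀ (by linarith)] at h1
    push_cast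
    have h2 : (j : ℝ) * (B : ℝ) ^ 3 ≤ (j : ℝ) * (B : ℝ) ^ 3 * m := le_mul_of_one_le_right (by positivity) hm1
    nlinarith
  obtain ⟨K, hK⟩ := hQ
  have herr : Tendsto (fun m : ℕ => 2 * (j * 2 ^ (j * B ^ 3)) * K ^ (j - 1) / (m : ℝ)) atTop (𝓝 0) := 
    tendsto_const_div_atTop_nhds_zero_nat _
  have hdiff : Tendsto (fun m => (((-1) ^ (l m ∅ - 1) * (∑ S, tm (l m ∅) (l m) j S) : ℤ) : ℝ) / (m : ℝ) ^ j - 
      ((∑ i ∈ range (j + 1), ((m * n).choose i : ℤ) * gg (l m ∅) j i : ℤ) : ℝ) / (m : ℝ) ^ j) atTop (𝓝 0) := by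
    apply squeeze_zero_norm' _ herr
    filter_upwards [eventually_gt_atTop 0, eventually_ge_atTop m0, hK] with m hm hm0 hK
    obtain ⟨near, G⟩ := hG m hm0
    have h1 := estimate G j (Fintype.card (Fin (m * n)) + 1 + l m ∅ + j * B ^ 3) le_rfl
    rw [Fintype.card_fin] at h1
    have hm' : (0 : ℝ) < m := by positivity
    rw [← sub_div, Real.norm_eq_abs, abs_div, abs_of_pos (pow_pos hm' j), div_le_div_iff₀ (pow_pos hm' j) hm']
    have h2 : |(((-1) ^ (l m ∅ - 1) * (∑ S, tm (l m ∅) (l m) j S) : ℤ) : ℝ) - 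
        ((∑ i ∈ range (j + 1), ((m * n).choose i : ℤ) * gg (l m ∅) j i : ℤ) : ℝ)| ≤ 
        2 * (j * 2 ^ (j * B ^ 3) * (((m * n + 1 + l m ∅ + j * B ^ 3 : ℕ) : ℝ)) ^ (j - 1)) := by
      exact_mod_cast h1
    have h3 : (((m * n + 1 + l m ∅ + j * B ^ 3 : ℕ) : ℝ)) ^ (j - 1) ≤ (K * m) ^ (j - 1) := 
      pow_le_pow_left₀ (Nat.cast_nonneg _) hK _
    have h4 : (m : ℝ) ^ j = (m : ℝ) ^ (j - 1) * m := by
      rw [← pow_succ]; congr 1; omega
    rw [h4]
    calc _ ≤ 2 * (j * 2 ^ (j * B ^ 3) * (K * m) ^ (j - 1)) * m := by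
            apply mul_le_mul_of_nonneg_right _ hm'.le
            refine h2.trans ?_
            apply mul_le_mul_of_nonneg_left _ (by norm_num)
            exact mul_le_mul_of_nonneg_left h3 (by positivity)
      _ = _ := by rw [mul_pow]; ring
  have h5 := hdiff.add hmain
  rw [zero_add] at h5
  have h6 := h5.abs
  rw [abs_div, abs_pow, abs_of_nonneg (show (0 : ℝ) ≤ j.factorial by positivity)] at h6
  refine h6.congr' ?_
  filter_upwards [eventually_gt_atTop 0] with m hm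
  rw [sub_add_cancel, abs_div, abs_of_nonneg (show (0 : ℝ) ≤ (m : ℝ) ^ j by positivity)]
  push_cast
  rw [abs_mul, abs_pow, abs_neg, abs_one, one_pow, one_mul]

end Pool.Agent.Q124.WV
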