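import Pool.Agent.H891R2.MT.T2
import Pool.Agent.Q124.WV.Defs

set_option autoImplicit false

namespace Pool.Agent.Q124.WV

open Finset Equiv Pool.Agent.H891R2.MT.T2

section perm

variable {X : Type} [Fintype X] [DecidableEq X] {n : ℕ} (ρ : Perm X) (c : X → Fin n)

/-- the odd one of the two places of column `i` -/
def jo (i : Fin n) : Fin (n + 1) := if (i : ℕ) % 2 = 1 then i.castSucc else i.succ

/-- the even one of the two places of column `i` -/
def je (i : Fin n) : Fin (n + 1) := if (i : ℕ) % 2 = 1 then i.succ else i.castSucc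

theorem jo_odd (i : Fin n) : (jo i : ℕ) % 2 = 1 := by
  unfold jo
  split_ifs with h
  · simpa using h
  · simp only [Fin.val_succ]; omega

theorem je_even (i : Fin n) : (je i : ℕ) % 2 = 0 := by
  unfold je
  split_ifs with h
  · simp only [Fin.val_succ]; omega
  · simp only [Fin.val_castSucc]; omega

/-- first output of the crossing `k` -/
def uu (k : X) : X × Fin (n + 1) := (ρ k, jo (c k))

/-- second output of the crossing `k` -/
def vv (k : X) : X × Fin (n + 1) := (k, je (c k))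

theorem uu_ne_vv (k l : X) : uu ρ c k ≠ vv c l := by
  intro h
  have h1 := congrArg (fun x : X × Fin (n + 1) => (x.2 : ℕ) % 2) h
  simp only [uu, vv] at h1
  rw [jo_odd, je_even] at h1
  omega

theorem uu_inj {k l : X} (h : uu ρ c k = uu ρ c l) : k = l := 
  ρ.injective (congrArg Prod.fst h)

theorem vv_inj {k l : X} (h : vv c k = vv c l) : k = l := congrArg Prod.fst h

/-- exchange of the outputs at the horizontal crossings -/
def sg (h : X → Bool) (x : X × Fin (n + 1)) : X × Fin (n + 1) :=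
  if (x.2 : ℕ) % 2 = 1 then
    if h (ρ.symm x.1) = true ∧ x.2 = jo (c (ρ.symm x.1)) then vv c (ρ.symm x.1) else x
  else if h x.1 = true ∧ x.2 = je (c x.1) then uu ρ c x.1 else x

theorem sg_uu (h : X → Bool) (k : X) : 
    sg ρ c h (uu ρ c k) = if h k then vv c k else uu ρ c k := by
  unfold sg
  have h1 : ((uu ρ c k).2 : ℕ) % 2 = 1 := jo_odd _
  have h2 : ρ.symm (uu ρ c k).1 = k := by simp [uu]
  rw [if_pos h1, h2]
  have h3 : (uu ρ c k).2 = jo (c k) := rfl
  simp only [h3, and_true]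

theorem sg_vv (h : X → Bool) (k : X) : 
    sg ρ c h (vv c k) = if h k then uu ρ c k else vv c k := by
  unfold sg
  have h1 : ¬ ((vv c k).2 : ℕ) % 2 = 1 := by
    have := je_even (c k)
    simp only [vv]
    omega
  rw [if_neg h1]
  have h3 : (vv c k).2 = je (c k) := rfl
  have h2 : (vv c k).1 = k := rfl
  simp only [h3, h2, and_true]

theorem sg_other (h : X → Bool) (x : X × Fin (n + 1)) (h1 : ∀ k, x ≠ uu ρ c k) 
    (h2 : ∀ k, x ≠ vv c k) : sg ρ c h x = x := by
  unfold sg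
  split_ifs with h3 h4 h4
  · exfalso
    apply h1 (ρ.symm x.1)
    ext1
    · simp [uu]
    · exact h4.2
  · rfl
  · exfalso
    apply h2 x.1
    ext1
    · rfl
    · exact h4.2
  · rfl

theorem sg_sg (h : X → Bool) (x : X × Fin (n + 1)) : sg ρ c h (sg ρ c h x) = x := by
  by_cases h1 : ∃ k, x = uu ρ c k
  · obtain ⟨k, rfl⟩ := h1
    rw [sg_uu]
    by_cases hk : h k = true
    · rw [if_pos hk, sg_vv, if_pos hk]
    · rw [if_neg hk, sg_uu, if_neg hk]
  by_cases h2 : ∃ k, x = vv c k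
  · obtain ⟨k, rfl⟩ := h2
    rw [sg_vv]
    by_cases hk : h k = true
    · rw [if_pos hk, sg_uu, if_pos hk]
    · rw [if_neg hk, sg_vv, if_neg hk]
  push Not at h1 h2
  rw [sg_other ρ c h x h1 h2, sg_other ρ c h x h1 h2]

/-- the exchange as a permutation -/
def sgP (h : X → Bool) : Perm (X × Fin (n + 1)) := ⟨sg ρ c h, sg ρ c h, sg_sg ρ c h, sg_sg ρ c h⟩

theorem sgP_apply (h : X → Bool) (x : X × Fin (n + 1)) : sgP ρ c h x = sg ρ c h x := rfl

theorem sgP_update (h : X → Bool) (k : X) : 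
    sgP ρ c (Function.update h k (!h k)) = swap (uu ρ c k) (vv c k) * sgP ρ c h := by
  ext1 x
  rw [Perm.mul_apply, sgP_apply, sgP_apply]
  by_cases h1 : ∃ l, x = uu ρ c l
  · obtain ⟨l, rfl⟩ := h1
    rw [sg_uu, sg_uu]
    by_cases hl : l = k
    · subst hl
      rw [Function.update_self]
      cases h l <;> simp
    · rw [Function.update_of_ne hl]
      by_cases hh : h l = true
      · rw [if_pos hh, swap_apply_of_ne_of_ne (uu_ne_vv ρ c k l).symm (fun h => hl (vv_inj c h))]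
      · rw [if_neg hh, swap_apply_of_ne_of_ne (fun h => hl (uu_inj ρ c h)) (uu_ne_vv ρ c l k)]
  by_cases h2 : ∃ l, x = vv c l
  · obtain ⟨l, rfl⟩ := h2
    rw [sg_vv, sg_vv]
    by_cases hl : l = k
    · subst hl
      rw [Function.update_self]
      cases h l <;> simp
    · rw [Function.update_of_ne hl]
      by_cases hh : h l = true
      · rw [if_pos hh, swap_apply_of_ne_of_ne (fun h => hl (uu_inj ρ c h)) (uu_ne_vv ρ c l k)]
      · rw [if_neg hh, swap_apply_of_ne_of_ne (uu_ne_vv ρ c k l).symm (fun h => hl (vv_inj c h))]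
  push Not at h1 h2
  rw [sg_other ρ c _ x h1 h2, sg_other ρ c _ x h1 h2, swap_apply_of_ne_of_ne (h1 k) (h2 k)]

/-- all crossings vertical -/
def vt : Perm (X × Fin (n + 1)) where
  toFun x := if (x.2 : ℕ) % 2 = 1 then (ρ x.1, x.2) else (ρ.symm x.1, x.2)
  invFun x := if (x.2 : ℕ) % 2 = 1 then (ρ.symm x.1, x.2) else (ρ x.1, x.2)
  left_inv x := by
    by_cases h : (x.2 : ℕ) % 2 = 1
    · simp [h]
    · simp [h]
  right_inv x := by
    by_cases h : (x.2 : ℕ) % 2 = 1
    · simp [h]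
    · simp [h]

theorem vt_apply (x : X × Fin (n + 1)) : 
    vt ρ x = if (x.2 : ℕ) % 2 = 1 then (ρ x.1, x.2) else (ρ.symm x.1, x.2) := rfl

/-- following the curves of a state -/
def st (h : X → Bool) : Perm (X × Fin (n + 1)) := sgP ρ c h * vt ρ

/-- the number of curves of a state -/
noncomputable def lp (h : X → Bool) : ℕ := cyc (st ρ c h)

theorem st_update (h : X → Bool) (k : X) : 
    st ρ c (Function.update h k (!h k)) = swap (uu ρ c k) (vv c k) * st ρ c h := by
  unfold st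
  rw [sgP_update, mul_assoc]

/-- the relation between the marked points in a state -/
def RR (h : X → Bool) (p q : X × Fin (n + 1)) : Prop :=
  ∃ k, (∃ j, (j ≠ (c k).castSucc ∧ j ≠ (c k).succ ∨ h k = false) ∧ p = (k, j) ∧ q = (ρ k, j)) ∨ 
    (h k = true ∧ ((p = (k, (c k).castSucc) ∧ q = (k, (c k).succ)) ∨ 
      (p = (ρ k, (c k).castSucc) ∧ q = (ρ k, (c k).succ))))

theorem jo_je (i : Fin n) : (jo i = i.castSucc ∧ je i = i.succ) ∨ (jo i = i.succ ∧ je i = i.castSucc) := by
  unfold jo je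
  split_ifs <;> simp

theorem st_odd (h : X → Bool) (k : X) (j : Fin (n + 1)) (hj : (j : ℕ) % 2 = 1) :
    st ρ c h (k, j) = if h k = true ∧ j = jo (c k) then (k, je (c k)) else (ρ k, j) := by
  unfold st
  rw [Perm.mul_apply, vt_apply, if_pos hj, sgP_apply]
  unfold sg
  simp only [hj, if_true, symm_apply_apply, vv]

theorem st_even (h : X → Bool) (k : X) (j : Fin (n + 1)) (hj : (j : ℕ) % 2 = 0) :
    st ρ c h (ρ k, j) = if h k = true ∧ j = je (c k) then (ρ k, jo (c k)) else (k, j) := by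
  unfold st
  have hj' : ¬ (j : ℕ) % 2 = 1 := by omega
  rw [Perm.mul_apply, vt_apply, if_neg hj', sgP_apply]
  unfold sg
  simp only [hj', if_false, symm_apply_apply, uu]

theorem st_RR (h : X → Bool) (p : X × Fin (n + 1)) : 
    Quot.mk (RR ρ c h) p = Quot.mk (RR ρ c h) (st ρ c h p) := by
  obtain ⟨k, j⟩ := p
  by_cases hp : (j : ℕ) % 2 = 1
  · rw [st_odd ρ c h k j hp]
    split_ifs with h1
    · obtain ⟨h1, rfl⟩ := h1
      rcases jo_je (c k) with ⟨h3, h4⟩ | ⟨h3, h4⟩
      · rw [h3, h4]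
        exact Quot.sound ⟨k, Or.inr ⟨h1, Or.inl ⟨rfl, rfl⟩⟩⟩
      · rw [h3, h4]
        exact (Quot.sound ⟨k, Or.inr ⟨h1, Or.inl ⟨rfl, rfl⟩⟩⟩).symm
    · refine Quot.sound ⟨k, Or.inl ⟨j, ?_, rfl, rfl⟩⟩
      by_cases h2 : h k = false
      · exact Or.inr h2
      · left
        have h3 : h k = true := by simpa using h2
        have h4 : j ≠ jo (c k) := fun h5 => h1 ⟨h3, h5⟩
        have h5 : j ≠ je (c k) := by
          rintro rfl
          rw [je_even] at hp; omega
        rcases jo_je (c k) with ⟨h6, h7⟩ | ⟨h6, h7⟩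
        · rw [h6] at h4; rw [h7] at h5; exact ⟨h4, h5⟩
        · rw [h6] at h4; rw [h7] at h5; exact ⟨h5, h4⟩
  · obtain ⟨l, rfl⟩ := ρ.surjective k
    rw [st_even ρ c h l j (by omega)]
    split_ifs with h1
    · obtain ⟨h1, rfl⟩ := h1
      rcases jo_je (c l) with ⟨h3, h4⟩ | ⟨h3, h4⟩
      · rw [h3, h4]
        exact (Quot.sound ⟨l, Or.inr ⟨h1, Or.inr ⟨rfl, rfl⟩⟩⟩).symm
      · rw [h3, h4]
        exact Quot.sound ⟨l, Or.inr ⟨h1, Or.inr ⟨rfl, rfl⟩⟩⟩
    · refine (Quot.sound ⟨l, Or.inl ⟨j, ?_, rfl, rfl⟩⟩).symm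
      by_cases h2 : h l = false
      · exact Or.inr h2
      · left
        have h3 : h l = true := by simpa using h2
        have h4 : j ≠ je (c l) := fun h5 => h1 ⟨h3, h5⟩
        have h5 : j ≠ jo (c l) := by
          rintro rfl
          exact hp (jo_odd _)
        rcases jo_je (c l) with ⟨h6, h7⟩ | ⟨h6, h7⟩
        · rw [h6] at h5; rw [h7] at h4; exact ⟨h5, h4⟩
        · rw [h6] at h5; rw [h7] at h4; exact ⟨h4, h5⟩

theorem lp_eq (h : X → Bool) : Nat.card (Quot (RR ρ c h)) = lp ρ c h := by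
  unfold lp cyc
  apply card_quot_congr
  · rintro p q ⟨k, ⟨j, hj, rfl, rfl⟩ | ⟨hk, ⟨rfl, rfl⟩ | ⟨rfl, rfl⟩⟩⟩
    · have hj1 : ¬ (h k = true ∧ j = jo (c k)) := by
        rintro ⟨h1, h2⟩
        rcases hj with hj | hj
        · rcases jo_je (c k) with h3 | h3
          · exact hj.1 (h2.trans h3.1)
          · exact hj.2 (h2.trans h3.1)
        · rw [h1] at hj; exact absurd hj (by decide)
      have hj2 : ¬ (h k = true ∧ j = je (c k)) := by
        rintro ⟨h1, h2⟩
        rcases hj with hj | hj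
        · rcases jo_je (c k) with h3 | h3
          · exact hj.2 (h2.trans h3.2)
          · exact hj.1 (h2.trans h3.2)
        · rw [h1] at hj; exact absurd hj (by decide)
      by_cases hp : (j : ℕ) % 2 = 1
      · apply Quot.sound
        rw [st_odd ρ c h k j hp, if_neg hj1]
      · symm
        apply Quot.sound
        rw [st_even ρ c h k j (by omega), if_neg hj2]
    · have h1 : Quot.mk (fun x y => st ρ c h x = y) (k, jo (c k)) = Quot.mk _ (k, je (c k)) := by
        apply Quot.sound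
        rw [st_odd ρ c h k _ (jo_odd _), if_pos ⟨hk, rfl⟩]
      rcases jo_je (c k) with ⟨h3, h4⟩ | ⟨h3, h4⟩
      · rw [h3, h4] at h1; exact h1
      · rw [h3, h4] at h1; exact h1.symm
    · have h1 : Quot.mk (fun x y => st ρ c h x = y) (ρ k, je (c k)) = Quot.mk _ (ρ k, jo (c k)) := by
        apply Quot.sound
        rw [st_even ρ c h k _ (je_even _), if_pos ⟨hk, rfl⟩]
      rcases jo_je (c k) with ⟨h3, h4⟩ | ⟨h3, h4⟩
      · rw [h3, h4] at h1; exact h1.symm
      · rw [h3, h4] at h1; exact h1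
  · rintro p q rfl
    exact st_RR ρ c h p

/-- switching one crossing changes the number of curves by one -/
theorem lp_update (h : X → Bool) (k : X) : 
    lp ρ c (Function.update h k (!h k)) ≤ lp ρ c h + 1 ∧ lp ρ c h ≤ lp ρ c (Function.update h k (!h k)) + 1 := by
  unfold lp
  rw [st_update]
  obtain ⟨h1, h2⟩ := cyc_swap (st ρ c h) (uu ρ c k) (vv c k) (uu_ne_vv ρ c k k)
  by_cases h3 : (st ρ c h).SameCycle (uu ρ c k) (vv c k)
  · rw [h1 h3]; omega
  · have := h2 h3; omega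

/-- two curves are merged -/
theorem lp_merge (h : X → Bool) (k : X) (Φ : X × Fin (n + 1) → Prop) 
    (hΦ : ∀ x, Φ (st ρ c h x) ↔ Φ x) (hk : ¬ (Φ (uu ρ c k) ↔ Φ (vv c k))) : 
    lp ρ c (Function.update h k (!h k)) + 1 = lp ρ c h := by
  unfold lp
  rw [st_update]
  refine (cyc_swap (st ρ c h) (uu ρ c k) (vv c k) (uu_ne_vv ρ c k k)).2 ?_
  intro h3
  obtain ⟨i, hi⟩ := h3.exists_nat_pow_eq
  apply hk
  rw [← hi]
  have : ∀ i : ℕ, Φ ((st ρ c h ^ i) (uu ρ c k)) ↔ Φ (uu ρ c k) := by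
    intro i
    induction i with
    | zero => rfl
    | succ i ih => rw [pow_succ', Perm.mul_apply, hΦ, ih]
  exact (this i).symm

/-- two states whose paths differ only at some crossings -/
theorem st_diff (h h' : X → Bool) (x : X × Fin (n + 1)) : 
    st ρ c h' x = st ρ c h x ∨ ∃ k, h k ≠ h' k ∧ 
      ((st ρ c h' x = uu ρ c k ∧ st ρ c h x = vv c k) ∨ (st ρ c h' x = vv c k ∧ st ρ c h x = uu ρ c k)) := by
  unfold st
  rw [Perm.mul_apply, Perm.mul_apply]
  generalize vt ρ x = y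
  rw [sgP_apply, sgP_apply]
  by_cases h1 : ∃ l, y = uu ρ c l
  · obtain ⟨l, rfl⟩ := h1
    rw [sg_uu, sg_uu]
    by_cases hl : h l = h' l
    · left; rw [hl]
    · right
      refine ⟨l, hl, ?_⟩
      revert hl
      cases h l <;> cases h' l <;> simp
  by_cases h2 : ∃ l, y = vv c l
  · obtain ⟨l, rfl⟩ := h2
    rw [sg_vv, sg_vv]
    by_cases hl : h l = h' l
    · left; rw [hl]
    · right
      refine ⟨l, hl, ?_⟩
      revert hl
      cases h l <;> cases h' l <;> simp
  push Not at h1 h2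
  left
  rw [sg_other ρ c _ y h1 h2, sg_other ρ c _ y h1 h2]

/-- cut lemma -/
theorem lp_cut {V : Type} (h0 h : X → Bool) (k : X) (lam : X × Fin (n + 1) → V) 
    (hlam : ∀ x, lam (st ρ c h0 x) = lam x) (φ : V → Prop) 
    (hS : ∀ l, h0 l ≠ h l → (φ (lam (uu ρ c l)) ↔ φ (lam (vv c l)))) 
    (hk : ¬ (φ (lam (uu ρ c k)) ↔ φ (lam (vv c k)))) : 
    lp ρ c (Function.update h k (!h k)) + 1 = lp ρ c h := by
  refine lp_merge ρ c h k (fun x => φ (lam x)) ?_ hk
  intro x
  rcases st_diff ρ c h0 h x with h1 | ⟨l, hl, ⟨h1, h2⟩ | ⟨h1, h2⟩⟩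
  · simp only [h1, hlam]
  · simp only [h1]
    rw [hS l hl, ← h2, hlam]
  · simp only [h1]
    rw [← hS l hl, ← h2, hlam]

theorem lp_pos [Nonempty X] (h : X → Bool) : 1 ≤ lp ρ c h := by
  unfold lp cyc
  have : Nonempty (Quot (fun x y => st ρ c h x = y)) := 
    ⟨Quot.mk _ (Classical.arbitrary X, 0)⟩
  have : Finite (Quot (fun x y => st ρ c h x = y)) := Finite.of_surjective _ Quot.mk_surjective
  exact Nat.one_le_iff_ne_zero.2 (Nat.card_pos.ne')

end perm

end Pool.Agent.Q124.WV
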