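import Pool.Agent.Q124.WV.Lim

set_option autoImplicit false
set_option linter.unusedSectionVars false

namespace Pool.Agent.Q124.WV

open Finset Pool.Agent.H891R2.MT.T2

theorem rot_val {L : ℕ} (k : Fin L) : ((finRotate L k : Fin L) : ℕ) = if (k : ℕ) + 1 = L then (0 : ℕ) else (k : ℕ) + 1 := by
  cases L with
  | zero => exact k.elim0
  | succ L =>
    rw [coe_finRotate]
    by_cases h : (k : ℕ) + 1 = L + 1
    · rw [if_pos h, if_pos (Fin.ext (by simp; omega))]
    · rw [if_neg h, if_neg (fun h' => h (by rw [h']; simp))]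

theorem dv {n a r z : ℤ} (h0 : 0 ≤ r) (h1 : r < n) (h : z = n * a + r) : z / n = a := by
  subst h
  rw [add_comm, Int.add_mul_ediv_left _ _ (by omega), Int.ediv_eq_zero_of_lt h0 h1, zero_add]

section weave

variable (n m : ℕ) (ε : Bool)

/-- parity of the horizontal columns -/
def eta : ℕ := if ε then 1 else 0

/-- column of the level -/
def cl (k : Fin (m * n)) : Fin n := k.modNat

/-- base pattern -/
def hb (k : Fin (m * n)) : Bool := ε != decide ((k.modNat : ℕ) % 2 = 0)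

variable {n m}

theorem hb_iff (k : Fin (m * n)) : hb n m ε k = true ↔ (cl n m k : ℕ) % 2 = eta ε := by
  unfold hb eta cl
  have h : (k.modNat : ℕ) % 2 = 0 ∨ (k.modNat : ℕ) % 2 = 1 := by omega
  rcases h with h | h
  · rw [h]; cases ε <;> simp
  · rw [h]; cases ε <;> simp

theorem hb_false (k : Fin (m * n)) : hb n m ε k = false ↔ (cl n m k : ℕ) % 2 ≠ eta ε := by
  rw [← Bool.not_eq_true, hb_iff]

theorem cl_val (k : Fin (m * n)) : (cl n m k : ℕ) = (k : ℕ) % n := rfl

theorem eta_lt : eta ε < 2 := by unfold eta; split_ifs <;> omega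

/-- the horizontal column next to the place `j` -/
def cc (j : ℕ) : ℤ := if j % 2 = eta ε then (j : ℤ) else j - 1

/-- quotient modulo `m` -/
def Qm (n m : ℕ) (z : ℤ) : ZMod m := ((z / (n : ℤ) : ℤ) : ZMod m)

theorem Qm_eq (hn : 0 < n) {a r z : ℤ} (h0 : 0 ≤ r) (h1 : r < n) (h : z = n * a + r) : Qm n m z = (a : ZMod m) := by
  unfold Qm
  rw [dv h0 h1 h]

theorem Qm_sub (hn : 0 < n) (z : ℤ) (δ : ℤ) : Qm n m (z - δ * (m * n)) = Qm n m z := by
  unfold Qm
  have h : z - δ * (m * n) = z + (-(δ * m)) * n := by ring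
  rw [h, Int.add_mul_ediv_right _ _ (by omega)]
  push_cast
  simp

/-- label of a marked point: the curve of the base state through it -/
def lam (n m : ℕ) (ε : Bool) (x : Fin (m * n) × Fin (n + 1)) : ZMod m × ℤ :=
  if 0 ≤ cc ε x.2 ∧ cc ε x.2 < n then (Qm n m (x.1 - cc ε x.2 - 1), cc ε x.2) else (0, cc ε x.2)

theorem rot_int (k : Fin (m * n)) : ∃ δ : ℤ, (((finRotate (m * n) k : Fin (m * n)) : ℕ) : ℤ) = k + 1 - δ * (m * n) := by
  rw [rot_val]
  split_ifs with h
  · refine ⟨1, ?_⟩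
    have : ((k : ℕ) : ℤ) + 1 = (m * n : ℕ) := by exact_mod_cast h
    push_cast at this ⊢
    linarith
  · exact ⟨0, by push_cast; ring⟩

theorem kdiv (k : Fin (m * n)) : ∃ a b : ℕ, (k : ℕ) = n * a + b ∧ b < n ∧ a < m ∧ (cl n m k : ℕ) = b ∧ (k : ℕ) / n = a := by
  have hn : 0 < n := by
    rcases Nat.eq_zero_or_pos n with h | h
    · subst h; exact absurd k.2 (by simp)
    · exact h
  refine ⟨(k : ℕ) / n, (k : ℕ) % n, ?_, Nat.mod_lt _ hn, ?_, rfl, rfl⟩
  · exact (Nat.div_add_mod _ _).symm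
  · rw [Nat.div_lt_iff_lt_mul hn]
    exact k.2

/-- vertical steps do not change the label -/
theorem lam_step (hn : 0 < n) (k : Fin (m * n)) (j : Fin (n + 1)) (h : cc ε j ≠ (cl n m k : ℕ)) : 
    lam n m ε (finRotate (m * n) k, j) = lam n m ε (k, j) := by
  unfold lam
  simp only
  by_cases hv : 0 ≤ cc ε j ∧ cc ε j < n
  · rw [if_pos hv, if_pos hv]
    congr 1
    obtain ⟨δ, hδ⟩ := rot_int k
    rw [hδ]
    have h1 : (k : ℤ) + 1 - δ * (m * n) - cc ε j - 1 = (k - cc ε j) - δ * (m * n) := by ring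
    rw [h1, Qm_sub hn]
    obtain ⟨a, b, hk, hb, -, hc, -⟩ := kdiv k
    rw [hc] at h
    have hk' : ((k : ℕ) : ℤ) = n * a + b := by exact_mod_cast hk
    have hb' : (b : ℤ) < n := by exact_mod_cast hb
    rcases lt_or_gt_of_ne h with h | h
    · rw [Qm_eq (a := a) (r := b - cc ε j) hn (by omega) (by omega) (by rw [hk']; ring),
        Qm_eq (a := a) (r := b - cc ε j - 1) hn (by omega) (by omega) (by rw [hk']; ring)]
    · rw [Qm_eq (a := a - 1) (r := n + b - cc ε j) hn (by omega) (by omega) (by rw [hk']; ring),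
        Qm_eq (a := a - 1) (r := n + b - cc ε j - 1) hn (by omega) (by omega) (by rw [hk']; ring)]
  · rw [if_neg hv, if_neg hv]

theorem cc_cast (k : Fin (m * n)) (h : (cl n m k : ℕ) % 2 = eta ε) : 
    cc ε ((cl n m k).castSucc : Fin (n + 1)) = (cl n m k : ℕ) ∧ cc ε ((cl n m k).succ : Fin (n + 1)) = (cl n m k : ℕ) := by
  unfold cc
  rw [Fin.val_castSucc, Fin.val_succ, if_pos h, if_neg (by omega)]
  exact ⟨rfl, by push_cast; ring⟩

theorem cc_cast' (k : Fin (m * n)) (h : (cl n m k : ℕ) % 2 ≠ eta ε) : 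
    cc ε ((cl n m k).castSucc : Fin (n + 1)) = (cl n m k : ℕ) - 1 ∧ cc ε ((cl n m k).succ : Fin (n + 1)) = (cl n m k : ℕ) + 1 := by
  unfold cc
  have := eta_lt ε
  rw [Fin.val_castSucc, Fin.val_succ, if_neg h, if_pos (by omega)]
  exact ⟨rfl, by push_cast; ring⟩

theorem step_ok (k : Fin (m * n)) (j : Fin (n + 1)) : 
    (j ≠ (cl n m k).castSucc ∧ j ≠ (cl n m k).succ ∨ hb n m ε k = false) ↔ cc ε j ≠ (cl n m k : ℕ) := by
  rw [hb_false]
  unfold cc
  have h0 := eta_lt ε
  constructor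
  · rintro (⟨h1, h2⟩ | h1)
    · have h3 : (j : ℕ) ≠ (cl n m k : ℕ) := fun h => h1 (Fin.ext (by simpa using h))
      have h4 : (j : ℕ) ≠ (cl n m k : ℕ) + 1 := fun h => h2 (Fin.ext (by simpa using h))
      split_ifs <;> omega
    · split_ifs <;> omega
  · intro h
    by_cases h1 : (cl n m k : ℕ) % 2 = eta ε
    · left
      constructor
      · rintro rfl
        rw [Fin.val_castSucc, if_pos h1] at h
        exact h rfl
      · rintro rfl
        rw [Fin.val_succ, if_neg (by omega)] at h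
        apply h
        push_cast
        ring
    · exact Or.inr h1

/-- labels are constant on the curves of the base state -/
theorem lam_RR (hn : 0 < n) (p q : Fin (m * n) × Fin (n + 1)) 
    (h : RR (finRotate (m * n)) (cl n m) (hb n m ε) p q) : lam n m ε p = lam n m ε q := by
  obtain ⟨k, ⟨j, hj, rfl, rfl⟩ | ⟨hk, ⟨rfl, rfl⟩ | ⟨rfl, rfl⟩⟩⟩ := h
  · rw [step_ok] at hj
    exact (lam_step ε hn k j hj).symm
  · rw [hb_iff] at hk
    obtain ⟨h1, h2⟩ := cc_cast ε k hk
    unfold lam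
    simp only [h1, h2]
  · rw [hb_iff] at hk
    obtain ⟨h1, h2⟩ := cc_cast ε k hk
    unfold lam
    simp only [h1, h2]

theorem lam_st (hn : 0 < n) (x : Fin (m * n) × Fin (n + 1)) : 
    lam n m ε (st (finRotate (m * n)) (cl n m) (hb n m ε) x) = lam n m ε x := by
  have h := st_RR (finRotate (m * n)) (cl n m) (hb n m ε) x
  exact (congrArg (Quot.lift (lam n m ε) (lam_RR ε hn)) h).symm

/-- first end of the crossing `k` in the base state -/
def eA (n m : ℕ) (ε : Bool) (k : Fin (m * n)) : ZMod m × ℤ :=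
  if (cl n m k : ℕ) % 2 = eta ε then ((((k : ℕ) / n : ℕ) : ZMod m), ((cl n m k : ℕ) : ℤ)) 
  else if 1 ≤ (cl n m k : ℕ) then ((((k : ℕ) / n : ℕ) : ZMod m), ((cl n m k : ℕ) : ℤ) - 1) else (0, -1)

/-- second end of the crossing `k` in the base state -/
def eB (n m : ℕ) (ε : Bool) (k : Fin (m * n)) : ZMod m × ℤ :=
  if (cl n m k : ℕ) % 2 = eta ε then ((((k : ℕ) / n : ℕ) : ZMod m) - 1, ((cl n m k : ℕ) : ℤ)) 
  else if (cl n m k : ℕ) + 1 < n then ((((k : ℕ) / n : ℕ) : ZMod m) - 1, ((cl n m k : ℕ) : ℤ) + 1) else (0, n)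

theorem lam_top (hn : 0 < n) (k : Fin (m * n)) (j : Fin (n + 1)) (h : cc ε j = (cl n m k : ℕ)) : 
    lam n m ε (finRotate (m * n) k, j) = ((((k : ℕ) / n : ℕ) : ZMod m), ((cl n m k : ℕ) : ℤ)) := by
  unfold lam
  simp only
  have hlt := (cl n m k).2
  rw [h, if_pos (by constructor <;> omega)]
  congr 1
  obtain ⟨δ, hδ⟩ := rot_int k
  rw [hδ]
  have h1 : (k : ℤ) + 1 - δ * (m * n) - ((cl n m k : ℕ) : ℤ) - 1 = (k - ((cl n m k : ℕ) : ℤ)) - δ * (m * n) := by ring
  rw [h1, Qm_sub hn]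
  obtain ⟨a, b, hk, hb, -, hc, hd⟩ := kdiv k
  have hk' : ((k : ℕ) : ℤ) = n * a + b := by exact_mod_cast hk
  rw [Qm_eq (a := a) (r := 0) hn (by omega) (by omega) (by rw [hk', hc]; ring), hd]
  push_cast
  rfl

theorem lam_bot (hn : 0 < n) (k : Fin (m * n)) (j : Fin (n + 1)) (h : cc ε j = (cl n m k : ℕ)) : 
    lam n m ε (k, j) = ((((k : ℕ) / n : ℕ) : ZMod m) - 1, ((cl n m k : ℕ) : ℤ)) := by
  unfold lam
  simp only
  have hlt := (cl n m k).2
  rw [h, if_pos (by constructor <;> omega)]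
  congr 1
  obtain ⟨a, b, hk, hb, -, hc, hd⟩ := kdiv k
  have hk' : ((k : ℕ) : ℤ) = n * a + b := by exact_mod_cast hk
  rw [Qm_eq (a := a - 1) (r := n - 1) hn (by omega) (by omega) (by rw [hk', hc]; ring), hd]
  push_cast
  rfl

theorem ends_H (hn : 0 < n) (k : Fin (m * n)) (hk : (cl n m k : ℕ) % 2 = eta ε) : 
    lam n m ε (uu (finRotate (m * n)) (cl n m) k) = eA n m ε k ∧ lam n m ε (vv (cl n m) k) = eB n m ε k := by
  obtain ⟨h1, h2⟩ := cc_cast ε k hk
  unfold uu vv eA eB
  rw [if_pos hk, if_pos hk]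
  constructor
  · apply lam_top ε hn
    rcases jo_je (cl n m k) with ⟨h3, h4⟩ | ⟨h3, h4⟩
    · rw [h3]; exact h1
    · rw [h3]; exact h2
  · apply lam_bot ε hn
    rcases jo_je (cl n m k) with ⟨h3, h4⟩ | ⟨h3, h4⟩
    · rw [h4]; exact h2
    · rw [h4]; exact h1

theorem ends_V1 (hn : 1 < n) (k : Fin (m * n)) (hk : (cl n m k : ℕ) % 2 ≠ eta ε) : 
    lam n m ε (k, (cl n m k).castSucc) = eA n m ε k := by
  obtain ⟨h1, h2⟩ := cc_cast' ε k hk
  unfold eA lam
  have hlt := (cl n m k).2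
  rw [if_neg hk]
  simp only [h1]
  by_cases h3 : 1 ≤ (cl n m k : ℕ)
  · rw [if_pos (by constructor <;> omega), if_pos h3]
    congr 1
    obtain ⟨a, b, hk, hb, -, hc, hd⟩ := kdiv k
    have hk' : ((k : ℕ) : ℤ) = n * a + b := by exact_mod_cast hk
    rw [Qm_eq (a := a) (r := 0) (by omega) (by omega) (by omega) (by rw [hk', hc]; ring), hd]
    push_cast
    rfl
  · rw [if_neg (by omega), if_neg h3]
    congr 1
    omega

theorem ends_V2 (hn : 1 < n) (k : Fin (m * n)) (hk : (cl n m k : ℕ) % 2 ≠ eta ε) : 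
    lam n m ε (k, (cl n m k).succ) = eB n m ε k := by
  obtain ⟨h1, h2⟩ := cc_cast' ε k hk
  unfold eB lam
  have hlt := (cl n m k).2
  rw [if_neg hk]
  simp only [h2]
  by_cases h3 : (cl n m k : ℕ) + 1 < n
  · rw [if_pos (by constructor <;> omega), if_pos h3]
    congr 1
    obtain ⟨a, b, hk, hb, -, hc, hd⟩ := kdiv k
    have hk' : ((k : ℕ) : ℤ) = n * a + b := by exact_mod_cast hk
    rw [Qm_eq (a := a - 1) (r := n - 2) (by omega) (by omega) (by omega) (by rw [hk', hc]; ring), hd]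
    push_cast
    rfl
  · rw [if_neg (by omega), if_neg h3]
    congr 1
    omega

theorem ends (hn : 1 < n) (k : Fin (m * n)) : 
    (lam n m ε (uu (finRotate (m * n)) (cl n m) k) = eA n m ε k ∧ lam n m ε (vv (cl n m) k) = eB n m ε k) ∨ 
    (lam n m ε (uu (finRotate (m * n)) (cl n m) k) = eB n m ε k ∧ lam n m ε (vv (cl n m) k) = eA n m ε k) := by
  by_cases hk : (cl n m k : ℕ) % 2 = eta ε
  · exact Or.inl (ends_H ε (by omega) k hk)
  · have h1 := ends_V1 ε hn k hk
    have h2 := ends_V2 ε hn k hk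
    obtain ⟨h5, h6⟩ := cc_cast' ε k hk
    unfold uu vv
    have h7 : ∀ j : Fin (n + 1), cc ε j ≠ (cl n m k : ℕ) → 
        lam n m ε (finRotate (m * n) k, j) = lam n m ε (k, j) := fun j hj => lam_step ε (by omega) k j hj
    rcases jo_je (cl n m k) with ⟨h3, h4⟩ | ⟨h3, h4⟩
    · left
      rw [h3, h4, h7 _ (by rw [h5]; omega)]
      exact ⟨h1, h2⟩
    · right
      rw [h3, h4, h7 _ (by rw [h6]; omega)]
      exact ⟨h2, h1⟩

/-- nearness of crossings -/
def near (n m : ℕ) (x y : Fin (m * n)) : Prop :=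
  ((((y : ℕ) / n : ℕ) : ZMod m) - (((x : ℕ) / n : ℕ) : ZMod m)) = -1 ∨ 
  ((((y : ℕ) / n : ℕ) : ZMod m) - (((x : ℕ) / n : ℕ) : ZMod m)) = 0 ∨ 
  ((((y : ℕ) / n : ℕ) : ZMod m) - (((x : ℕ) / n : ℕ) : ZMod m)) = 1

theorem near_refl (x : Fin (m * n)) : near n m x x := Or.inr (Or.inl (sub_self _))

theorem near_symm (x y : Fin (m * n)) (h : near n m x y) : near n m y x := by
  unfold near at *
  rcases h with h | h | h
  · right; right; rw [← neg_sub, h, neg_neg]
  · right; left; rw [← neg_sub, h, neg_zero]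
  · left; rw [← neg_sub, h]

theorem near_bd (x : Fin (m * n)) (U : Finset (Fin (m * n))) (hU : ∀ y ∈ U, near n m x y) : #U ≤ 3 * n := by
  classical
  let f : Fin (m * n) → ZMod m × ℕ := fun y => ((((y : ℕ) / n : ℕ) : ZMod m), (y : ℕ) % n)
  have hf : Set.InjOn f U := by
    intro y _ z _ h
    simp only [f, Prod.mk.injEq] at h
    obtain ⟨a, b, h1, h2, h3, h4, h5⟩ := kdiv y
    obtain ⟨a', b', h1', h2', h3', h4', h5'⟩ := kdiv z
    have h6 : a = a' := by
      have h7 := h.1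
      rw [h5, h5', ZMod.natCast_eq_natCast_iff'] at h7
      rwa [Nat.mod_eq_of_lt h3, Nat.mod_eq_of_lt h3'] at h7
    have h7 : b = b' := by
      have h8 := h.2
      rw [cl_val] at h4 h4'
      omega
    apply Fin.ext
    rw [h1, h1', h6, h7]
  rw [← Finset.card_image_of_injOn hf]
  have h1 : U.image f ⊆ ({(((x : ℕ) / n : ℕ) : ZMod m) - 1, (((x : ℕ) / n : ℕ) : ZMod m), 
      (((x : ℕ) / n : ℕ) : ZMod m) + 1} : Finset (ZMod m)) ×ˢ range n := by
    intro v hv
    rw [Finset.mem_image] at hv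
    obtain ⟨y, hy, rfl⟩ := hv
    rw [Finset.mem_product]
    constructor
    · simp only [f, Finset.mem_insert, Finset.mem_singleton]
      rcases hU y hy with h | h | h
      · left; rw [sub_eq_iff_eq_add] at h; rw [h]; ring
      · right; left; rw [sub_eq_iff_eq_add] at h; rw [h]; ring
      · right; right; rw [sub_eq_iff_eq_add] at h; rw [h]; ring
    · simp only [f, Finset.mem_range]
      exact (cl n m y).2
  refine (Finset.card_le_card h1).trans ?_
  rw [Finset.card_product, Finset.card_range]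
  exact Nat.mul_le_mul_right _ Finset.card_le_three

/-- incident with the vertex `v` -/
def inc (n m : ℕ) (ε : Bool) (v : ZMod m × ℤ) (k : Fin (m * n)) : Prop := eA n m ε k = v ∨ eB n m ε k = v

theorem eA_ne_eB (hn : 1 < n) (hm : 1 < m) (k : Fin (m * n)) : eA n m ε k ≠ eB n m ε k := by
  unfold eA eB
  by_cases h : (cl n m k : ℕ) % 2 = eta ε
  · rw [if_pos h, if_pos h]
    intro h1
    have h2 := congrArg Prod.fst h1
    simp only at h2
    have : Fact (1 < m) := ⟨hm⟩
    have h3 : (1 : ZMod m) = 0 := by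
      have := sub_eq_self.1 h2.symm
      exact this
    exact one_ne_zero h3
  · rw [if_neg h, if_neg h]
    intro h1
    have h2 := congrArg Prod.snd h1
    have hlt := (cl n m k).2
    split_ifs at h2 <;> simp only at h2 <;> omega

/-- an edge has an end inside whose other edges are near -/
theorem exists_inner (hn : 1 < n) (k : Fin (m * n)) : 
    ∃ v, inc n m ε v k ∧ ∀ k', inc n m ε v k' → near n m k k' := by
  have key : ∀ v : ZMod m × ℤ, 0 ≤ v.2 → v.2 < n → ∀ k' : Fin (m * n), inc n m ε v k' → 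
      v.1 = (((k' : ℕ) / n : ℕ) : ZMod m) ∨ v.1 = (((k' : ℕ) / n : ℕ) : ZMod m) - 1 := by
    intro v hv1 hv2 k' hk'
    have hlt := (cl n m k').2
    rcases hk' with rfl | rfl
    · left
      unfold eA at hv1 hv2 ⊢
      split_ifs at hv1 hv2 ⊢
      · rfl
      · rfl
      · simp at hv1
    · right
      unfold eB at hv1 hv2 ⊢
      split_ifs at hv1 hv2 ⊢
      · rfl
      · rfl
      · simp at hv2
  have key2 : ∀ v : ZMod m × ℤ, 0 ≤ v.2 → v.2 < n → inc n m ε v k → ∀ k', inc n m ε v k' → near n m k k' := by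
    intro v hv1 hv2 hk k' hk'
    unfold near
    rcases key v hv1 hv2 k hk with h1 | h1 <;> rcases key v hv1 hv2 k' hk' with h2 | h2
    · right; left; rw [← h1, ← h2, sub_self]
    · right; right
      have h3 : (((k' : ℕ) / n : ℕ) : ZMod m) = v.1 + 1 := by rw [h2]; ring
      rw [← h1, h3]; ring
    · left
      have h3 : (((k : ℕ) / n : ℕ) : ZMod m) = v.1 + 1 := by rw [h1]; ring
      rw [← h2, h3]; ring
    · right; left
      have h3 : (((k : ℕ) / n : ℕ) : ZMod m) = v.1 + 1 := by rw [h1]; ring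
      have h4 : (((k' : ℕ) / n : ℕ) : ZMod m) = v.1 + 1 := by rw [h2]; ring
      rw [h3, h4, sub_self]
  have hlt := (cl n m k).2
  by_cases h : (cl n m k : ℕ) % 2 = eta ε
  · refine ⟨eA n m ε k, Or.inl rfl, key2 _ ?_ ?_ (Or.inl rfl)⟩
    · unfold eA; rw [if_pos h]; simp
    · unfold eA; rw [if_pos h]; simp
  · by_cases h1 : 1 ≤ (cl n m k : ℕ)
    · refine ⟨eA n m ε k, Or.inl rfl, key2 _ ?_ ?_ (Or.inl rfl)⟩
      · unfold eA; rw [if_neg h, if_pos h1]; simp only; omega
      · unfold eA; rw [if_neg h, if_pos h1]; simp only; omega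
    · refine ⟨eB n m ε k, Or.inr rfl, key2 _ ?_ ?_ (Or.inr rfl)⟩
      · unfold eB; rw [if_neg h, if_pos (by omega)]; simp only; omega
      · unfold eB; rw [if_neg h, if_pos (by omega)]; simp only; omega

theorem idx_eq (x y : Fin (m * n)) (h1 : (((x : ℕ) / n : ℕ) : ZMod m) = (((y : ℕ) / n : ℕ) : ZMod m)) 
    (h2 : (cl n m x : ℕ) = (cl n m y : ℕ)) : x = y := by
  obtain ⟨a, b, h1a, h2a, h3a, h4a, h5a⟩ := kdiv x
  obtain ⟨a', b', h1', h2', h3', h4', h5'⟩ := kdiv y
  have h6 : a = a' := by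
    rw [h5a, h5', ZMod.natCast_eq_natCast_iff'] at h1
    rwa [Nat.mod_eq_of_lt h3a, Nat.mod_eq_of_lt h3'] at h1
  apply Fin.ext
  rw [h1a, h1', h6, ← h4a, ← h4', h2]

theorem two_ne (hm : 2 < m) : (2 : ZMod m) ≠ 0 := by
  intro h
  have h1 : ((2 : ℕ) : ZMod m) = 0 := by exact_mod_cast h
  rw [ZMod.natCast_eq_zero_iff] at h1
  exact absurd (Nat.le_of_dvd (by norm_num) h1) (by omega)

/-- no double edges -/
theorem simple (hn : 1 < n) (hm : 2 < m) (x y : Fin (m * n)) (hxy : x ≠ y) : 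
    ∃ v, inc n m ε v x ∧ ¬ inc n m ε v y := by
  by_contra hc
  push Not at hc
  have h1 := hc _ (Or.inl rfl)
  have h2 := hc _ (Or.inr rfl)
  have hx := (cl n m x).2
  have hy := (cl n m y).2
  have h3 := eA_ne_eB ε hn (show 1 < m by omega) x
  have htwo := two_ne hm
  apply hxy
  rcases h1 with h1 | h1
  · rcases h2 with h2 | h2
    · exact absurd (h1.symm.trans h2) h3
    · have e1 := congrArg Prod.fst h1
      have e2 := congrArg Prod.snd h1
      have e3 := congrArg Prod.fst h2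
      have e4 := congrArg Prod.snd h2
      have hcl : (cl n m x : ℕ) = (cl n m y : ℕ) := by
        unfold eA at e2
        unfold eB at e4
        split_ifs at e2 e4 <;> simp only at e2 e4 <;> omega
      refine idx_eq _ _ ?_ hcl
      unfold eA at e1
      unfold eB at e3
      rw [hcl] at e1 e3
      by_cases h5 : (cl n m y : ℕ) % 2 = eta ε
      · rw [if_pos h5, if_pos h5] at e1
        exact e1.symm
      · rw [if_neg h5, if_neg h5] at e1 e3
        by_cases h6 : 1 ≤ (cl n m y : ℕ)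
        · rw [if_pos h6, if_pos h6] at e1
          exact e1.symm
        · rw [if_pos (by omega), if_pos (by omega)] at e3
          exact (sub_left_inj.1 e3).symm
  · rcases h2 with h2 | h2
    · exfalso
      have e1 := congrArg Prod.fst h1
      have e2 := congrArg Prod.snd h1
      have e3 := congrArg Prod.fst h2
      have e4 := congrArg Prod.snd h2
      by_cases h5 : (cl n m x : ℕ) % 2 = eta ε
      · by_cases h6 : (cl n m y : ℕ) % 2 = eta ε
        · unfold eA eB at e1 e3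
          rw [if_pos h5, if_pos h6] at e1 e3
          simp only at e1 e3
          apply htwo
          have h7 : (((y : ℕ) / n : ℕ) : ZMod m) = (((x : ℕ) / n : ℕ) : ZMod m) + 1 := by rw [← e1]; ring
          rw [h7] at e3
          have h8 : (((x : ℕ) / n : ℕ) : ZMod m) + 1 - ((((x : ℕ) / n : ℕ) : ZMod m) - 1) = 0 := by rw [e3]; ring
          have h9 : (((x : ℕ) / n : ℕ) : ZMod m) + 1 - ((((x : ℕ) / n : ℕ) : ZMod m) - 1) = 2 := by ring
          rw [← h9, h8]
        · unfold eA eB at e2 e4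
          rw [if_pos h5, if_neg h6] at e2 e4
          split_ifs at e2 e4 <;> simp only at e2 e4 <;> omega
      · by_cases h6 : (cl n m y : ℕ) % 2 = eta ε
        · unfold eA eB at e2 e4
          rw [if_neg h5, if_pos h6] at e2 e4
          split_ifs at e2 e4 <;> simp only at e2 e4 <;> omega
        · unfold eA eB at e2 e4
          rw [if_neg h5, if_neg h6] at e2 e4
          split_ifs at e2 e4 <;> simp only at e2 e4 <;> omega
    · exact absurd (h1.symm.trans h2) h3

end weave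

end Pool.Agent.Q124.WV
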